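import Pool.Agent.H102Z.Lcs.Lie

/-! The free superalgebra: grading, projections, derivations. -/

noncomputable section

set_option linter.unusedSectionVars false

namespace H102Z.Lcs

open Submodule

section der
variable {R : Type*} [Ring R] [Algebra ℂ R] {θ : R →ₐ[ℂ] R}

theorem even_der_br {D : R →ₗ[ℂ] R} (hD : ∀ a b, D (a * b) = D a * b + a * D b)
    (hc : ∀ a, θ (D a) = D (θ a)) (a w : R) : D (br θ a w) = br θ (D a) w + br θ a (D w) := by
  simp only [br_apply, map_sub, map_add, map_smul, hD, hc]; module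

theorem odd_der_br (hθ : ∀ a, θ (θ a) = a) {D : R →ₗ[ℂ] R}
    (hD : ∀ a b, D (a * b) = D a * b + θ a * D b)
    (hc : ∀ a, θ (D a) = -D (θ a)) (a w : R) :
    D (br θ a w) = br θ (D a) w + br θ (θ a) (D w) := by
  simp only [br_apply, map_sub, map_add, map_smul, hD, hc, hθ, mul_neg, neg_mul]; module

theorem even_der_Ch {D : R →ₗ[ℂ] R} (hD : ∀ a b, D (a * b) = D a * b + a * D b)
    (hc : ∀ a, θ (D a) = D (θ a)) {T W : Submodule ℂ R} (hT : ∀ a ∈ T, D a ∈ T)
    (hW : ∀ a ∈ W, D a ∈ W) (j : ℕ) : ∀ w ∈ Ch θ T W j, D w ∈ Ch θ T W j := by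
  induction j with
  | zero => exact hW
  | succ j ih =>
    refine map₂_ind D ?_
    intro a ha w hw
    rw [even_der_br hD hc]
    exact add_mem (br_mem_Ch (hT a ha) hw) (br_mem_Ch ha (ih w hw))

theorem even_der_LC {D : R →ₗ[ℂ] R} (hD : ∀ a b, D (a * b) = D a * b + a * D b)
    (hc : ∀ a, θ (D a) = D (θ a)) (j : ℕ) : ∀ w ∈ LC θ j, D w ∈ LC θ j := by
  rw [LC_eq_Ch]; exact even_der_Ch hD hc (T := ⊤) (W := ⊤) (fun _ _ => trivial) (fun _ _ => trivial) j

theorem odd_der_LC (hθ : ∀ a, θ (θ a) = a) {D : R →ₗ[ℂ] R}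
    (hD : ∀ a b, D (a * b) = D a * b + θ a * D b)
    (hc : ∀ a, θ (D a) = -D (θ a)) (j : ℕ) : ∀ w ∈ LC θ j, D w ∈ LC θ j := by
  induction j with
  | zero => intro _ _; trivial
  | succ j ih =>
    refine map₂_ind D ?_
    intro a _ w hw
    rw [odd_der_br hθ hD hc]
    exact add_mem (br_mem_LC _ hw) (br_mem_LC _ (ih w hw))

end der

abbrev FA (J : Type) := FreeAlgebra ℂ J

variable {J J' I : Type}

/-- generator -/
abbrev gn (j : J) : FA J := FreeAlgebra.ι ℂ j

/-- the monomial of a word -/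
def wd (l : List J) : FA J := (l.map gn).prod

@[simp] theorem wd_nil : wd ([] : List J) = 1 := rfl
@[simp] theorem wd_cons (j : J) (l : List J) : wd (j :: l) = gn j * wd l := by simp [wd]
@[simp] theorem wd_append (l l' : List J) : wd (l ++ l') = wd l * wd l' := by simp [wd]

theorem basis_apply (w : FreeMonoid J) :
    FreeAlgebra.basisFreeMonoid ℂ J w = wd (FreeMonoid.toList w) := by
  have : FreeAlgebra.basisFreeMonoid ℂ J w = FreeMonoid.lift (FreeAlgebra.ι ℂ) w := by
    simp [FreeAlgebra.basisFreeMonoid, FreeAlgebra.equivMonoidAlgebraFreeMonoid]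
  rw [this, FreeMonoid.lift_apply]; rfl

/-- the linear map with prescribed values on words -/
def onW {V : Type*} [AddCommGroup V] [Module ℂ V] (f : List J → V) : FA J →ₗ[ℂ] V :=
  (FreeAlgebra.basisFreeMonoid ℂ J).constr ℂ (fun w => f (FreeMonoid.toList w))

@[simp] theorem onW_wd {V : Type*} [AddCommGroup V] [Module ℂ V] (f : List J → V) (l : List J) :
    onW f (wd l) = f l := by
  have := (FreeAlgebra.basisFreeMonoid ℂ J).constr_basis ℂ (fun w => f (FreeMonoid.toList w))
    (FreeMonoid.ofList l)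
  rwa [basis_apply] at this

theorem wd_ext {V : Type*} [AddCommGroup V] [Module ℂ V] {f g : FA J →ₗ[ℂ] V}
    (h : ∀ l, f (wd l) = g (wd l)) : f = g :=
  (FreeAlgebra.basisFreeMonoid ℂ J).ext fun w => by rw [basis_apply]; exact h _

theorem mem_of_wd {N : Submodule ℂ (FA J)} (h : ∀ l, wd l ∈ N) (x : FA J) : x ∈ N := by
  have : ⊤ ≤ N := by
    rw [← (FreeAlgebra.basisFreeMonoid ℂ J).span_eq, span_le]
    rintro _ ⟨w, rfl⟩
    rw [basis_apply]; exact h _
  exact this trivial

theorem map_mem_of_wd {V : Type*} [AddCommGroup V] [Module ℂ V] (Φ : FA J →ₗ[ℂ] V)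
    {N : Submodule ℂ V} (h : ∀ l, Φ (wd l) ∈ N) (x : FA J) : Φ x ∈ N :=
  mem_of_wd (N := N.comap Φ) h x

/-- the multidegree of a word -/
def deg (c : J → I) (l : List J) : I →₀ ℕ := (l.map fun j => Finsupp.single (c j) 1).sum

variable {c : J → I} {c' : J' → I}

@[simp] theorem deg_nil : deg c [] = 0 := rfl
@[simp] theorem deg_cons (j : J) (l : List J) :
    deg c (j :: l) = Finsupp.single (c j) 1 + deg c l := by simp [deg]
@[simp] theorem deg_append (l l' : List J) : deg c (l ++ l') = deg c l + deg c l' := by simp [deg]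

/-- homogeneous component -/
def G (c : J → I) (d : I →₀ ℕ) : Submodule ℂ (FA J) := span ℂ (wd '' {l | deg c l = d})

theorem wd_mem_G (l : List J) : wd l ∈ G c (deg c l) := subset_span ⟨l, rfl, rfl⟩

theorem gn_mem_G (j : J) : gn j ∈ G c (Finsupp.single (c j) 1) := by
  simpa using wd_mem_G (c := c) [j]

theorem one_mem_G : (1 : FA J) ∈ G c 0 := by simpa using wd_mem_G (c := c) []

theorem G_ind {V : Type*} [AddCommGroup V] [Module ℂ V] (Φ : FA J →ₗ[ℂ] V) {N : Submodule ℂ V}
    {d : I →₀ ℕ} (h : ∀ l, deg c l = d → Φ (wd l) ∈ N) : ∀ x ∈ G c d, Φ x ∈ N := by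
  intro x hx
  refine (span_le (p := N.comap Φ)).2 ?_ hx
  rintro _ ⟨l, hl, rfl⟩
  exact h l hl

theorem G_eq {V : Type*} [AddCommGroup V] [Module ℂ V] (Φ Ψ : FA J →ₗ[ℂ] V)
    {d : I →₀ ℕ} (h : ∀ l, deg c l = d → Φ (wd l) = Ψ (wd l)) : ∀ x ∈ G c d, Φ x = Ψ x := by
  intro x hx
  have := G_ind (Φ - Ψ) (N := ⊥) (fun l hl => by simp [h l hl]) x hx
  simpa [sub_eq_zero] using this

theorem G_mul {d d' : I →₀ ℕ} {x y : FA J} (hx : x ∈ G c d) (hy : y ∈ G c d') :
    x * y ∈ G c (d + d') := by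
  refine G_ind ((LinearMap.mul ℂ _).flip y) ?_ x hx
  intro l hl
  refine G_ind (LinearMap.mul ℂ _ (wd l)) ?_ y hy
  intro l' hl'
  simpa [hl, hl'] using wd_mem_G (c := c) (l ++ l')

open Classical in
/-- projection to a homogeneous component -/
def pr (c : J → I) (d : I →₀ ℕ) : FA J →ₗ[ℂ] FA J := onW fun l => if deg c l = d then wd l else 0

theorem pr_of_mem {d : I →₀ ℕ} : ∀ x ∈ G c d, pr c d x = x :=
  G_eq (pr c d) LinearMap.id fun l hl => by simp [pr, hl]

theorem pr_of_ne {d d' : I →₀ ℕ} (h : d' ≠ d) : ∀ x ∈ G c d', pr c d x = 0 :=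
  G_eq (pr c d) 0 fun l hl => by simp [pr, hl, h]

theorem pr_mem (d : I →₀ ℕ) (x : FA J) : pr c d x ∈ G c d := by
  refine map_mem_of_wd _ (fun l => ?_) x
  by_cases h : deg c l = d
  · simpa [pr, h] using h ▸ wd_mem_G (c := c) l
  · simp [pr, h]

theorem iSup_ind {V V' κ : Type*} [AddCommGroup V] [Module ℂ V] [AddCommGroup V'] [Module ℂ V']
    (Φ : V →ₗ[ℂ] V') {N : Submodule ℂ V'} {p : κ → Submodule ℂ V}
    (h : ∀ k, ∀ x ∈ p k, Φ x ∈ N) : ∀ x ∈ ⨆ k, p k, Φ x ∈ N :=
  fun _ hx => (iSup_le (a := N.comap Φ) h) hx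

/-- graded subspaces -/
def IsGr (c : J → I) (N : Submodule ℂ (FA J)) : Prop := N ≤ ⨆ d, N ⊓ G c d

theorem IsGr.pr_mem {N : Submodule ℂ (FA J)} (h : IsGr c N) (d : I →₀ ℕ) {x : FA J} (hx : x ∈ N) :
    pr c d x ∈ N := by
  refine iSup_ind (pr c d) ?_ x (h hx)
  intro d' y hy
  by_cases e : d' = d
  · subst e; rw [pr_of_mem y hy.2]; exact hy.1
  · rw [pr_of_ne e y hy.2]; exact zero_mem _

theorem isGr_top : IsGr c ⊤ := fun x _ =>
  mem_of_wd (N := ⨆ d, ⊤ ⊓ G c d)
    (fun l => mem_iSup_of_mem (deg c l) (mem_inf.2 ⟨trivial, wd_mem_G l⟩)) x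

theorem IsGr.map₂ {β : FA J →ₗ[ℂ] FA J →ₗ[ℂ] FA J}
    (hβ : ∀ d d' x y, x ∈ G c d → y ∈ G c d' → β x y ∈ G c (d + d')) {N P : Submodule ℂ (FA J)}
    (hN : IsGr c N) (hP : IsGr c P) : IsGr c (map₂ β N P) := by
  refine map₂_le.2 fun x hx y hy => ?_
  refine iSup_ind (β.flip y) ?_ x (hN hx)
  intro d x hx
  refine iSup_ind (β x) ?_ y (hP hy)
  intro d' y hy
  exact mem_iSup_of_mem (d + d') ⟨apply_mem_map₂ _ hx.1 hy.1, hβ _ _ _ _ hx.2 hy.2⟩

/-- number of odd letters -/
def pd [Fintype I] (par : I → Bool) (d : I →₀ ℕ) : ℕ := ∑ i, if par i then d i else 0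

/-- the parity automorphism -/
def th (par : I → Bool) (c : J → I) : FA J →ₐ[ℂ] FA J :=
  FreeAlgebra.lift ℂ fun j => if par (c j) then -gn j else gn j

variable {par : I → Bool}

theorem th_gn (j : J) : th par c (gn j) = if par (c j) then -gn j else gn j := by simp [th]

theorem th_th (a : FA J) : th par c (th par c a) = a := by
  have : (th par c).comp (th par c) = AlgHom.id ℂ _ := by
    ext j
    by_cases h : par (c j) <;> simp [th_gn, h]
  exact DFunLike.congr_fun this a

variable [Fintype I] [DecidableEq I]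

omit [DecidableEq I] in
theorem pd_add (d d' : I →₀ ℕ) : pd par (d + d') = pd par d + pd par d' := by
  simp only [pd, ← Finset.sum_add_distrib]
  refine Finset.sum_congr rfl fun i _ => ?_
  split_ifs <;> simp

theorem pd_single (i : I) (r : ℕ) : pd par (Finsupp.single i r) = if par i then r else 0 := by
  simp only [pd]
  rw [Finset.sum_eq_single i]
  · simp
  · intro b _ hb; simp [Finsupp.single_eq_of_ne hb]
  · simp

omit [DecidableEq I] in
@[simp] theorem pd_zero : pd par 0 = 0 := by simp [pd]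

theorem th_wd (l : List J) : th par c (wd l) = (-1 : ℂ) ^ pd par (deg c l) • wd l := by
  induction l with
  | nil => simp
  | cons j l ih =>
    rw [wd_cons, map_mul, ih, th_gn, deg_cons, pd_add, pd_single, pow_add]
    by_cases h : par (c j) <;> simp [h]

theorem th_of_mem {d : I →₀ ℕ} : ∀ x ∈ G c d, th par c x = (-1 : ℂ) ^ pd par d • x :=
  G_eq (th par c).toLinearMap ((-1 : ℂ) ^ pd par d • LinearMap.id) fun l hl => by
    simpa [hl] using th_wd (par := par) (c := c) l

theorem th_mem_G {d : I →₀ ℕ} {x : FA J} (hx : x ∈ G c d) : th par c x ∈ G c d := by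
  rw [th_of_mem x hx]; exact smul_mem _ _ hx

theorem IsGr.th_mem {N : Submodule ℂ (FA J)} (h : IsGr c N) : ∀ x ∈ N, th par c x ∈ N := by
  intro x hx
  refine iSup_ind (th par c).toLinearMap ?_ x (h hx)
  intro d y hy
  simpa [th_of_mem y hy.2] using smul_mem _ _ hy.1

theorem br_mem_G {d d' : I →₀ ℕ} {x y : FA J} (hx : x ∈ G c d) (hy : y ∈ G c d') :
    br (th par c) x y ∈ G c (d + d') := by
  rw [br_apply]
  have hx' := th_mem_G (par := par) hx
  have hy' := th_mem_G (par := par) hy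
  refine sub_mem (G_mul hx hy) (smul_mem _ _ ?_)
  rw [add_comm d d']
  exact sub_mem (add_mem (add_mem (G_mul hy hx) (G_mul hy hx')) (G_mul hy' hx)) (G_mul hy' hx')

theorem isGr_Ch {T W : Submodule ℂ (FA J)} (hT : IsGr c T) (hW : IsGr c W) (j : ℕ) :
    IsGr c (Ch (th par c) T W j) := by
  induction j with
  | zero => exact hW
  | succ j ih => exact IsGr.map₂ (fun _ _ _ _ => br_mem_G) hT ih

theorem isGr_LC (j : ℕ) : IsGr c (LC (th par c) j) := by
  rw [LC_eq_Ch]; exact isGr_Ch isGr_top isGr_top j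

theorem isGr_M3 : IsGr c (M3 (th par c)) :=
  IsGr.map₂ (fun _ _ _ _ => G_mul) isGr_top (isGr_LC 2)

omit [DecidableEq I] in
theorem sum_deg (l : List J) : ∑ i, deg c l i = l.length := by
  classical
  induction l with
  | nil => simp
  | cons j l ih => simp [Finset.sum_add_distrib, ih, Finsupp.single_apply, add_comm]

omit [DecidableEq I] in
instance fd_G [Finite J] (d : I →₀ ℕ) : FiniteDimensional ℂ (G c d) := by
  refine FiniteDimensional.span_of_finite ℂ (Set.Finite.image _ ?_)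
  refine (List.finite_length_eq J (∑ i, d i)).subset fun l hl => ?_
  have hl' : deg c l = d := hl
  simp [← hl', sum_deg]

/-! ### derivations -/

/-- values of a twisted derivation on words -/
def dl (φ : FA J →ₐ[ℂ] FA J) (f : J → FA J) : List J → FA J
  | [] => 0
  | j :: l => f j * wd l + φ (gn j) * dl φ f l

/-- the `φ`-twisted derivation with values `f` on the generators -/
def der (φ : FA J →ₐ[ℂ] FA J) (f : J → FA J) : FA J →ₗ[ℂ] FA J := onW (dl φ f)

theorem der_mul (φ : FA J →ₐ[ℂ] FA J) (f : J → FA J) (a b : FA J) :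
    der φ f (a * b) = der φ f a * b + φ a * der φ f b := by
  have h1 : ∀ l l', dl φ f (l ++ l') = dl φ f l * wd l' + φ (wd l) * dl φ f l' := by
    intro l l'
    induction l with
    | nil => simp [dl]
    | cons j l ih => simp only [List.cons_append, dl, ih, wd_append, wd_cons, map_mul]; noncomm_ring
  have h2 : ∀ l, (der φ f).comp (LinearMap.mul ℂ _ (wd l)) =
      LinearMap.mul ℂ _ (der φ f (wd l)) + (LinearMap.mul ℂ _ (φ (wd l))).comp (der φ f) :=
    fun l => wd_ext fun l' => by simpa [der, ← wd_append] using h1 l l'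
  have h3 : (der φ f).comp ((LinearMap.mul ℂ _).flip b) =
      ((LinearMap.mul ℂ _).flip b).comp (der φ f) +
        ((LinearMap.mul ℂ _).flip (der φ f b)).comp φ.toLinearMap :=
    wd_ext fun l => by simpa using LinearMap.congr_fun (h2 l) b
  simpa using LinearMap.congr_fun h3 a

@[simp] theorem der_gn (φ : FA J →ₐ[ℂ] FA J) (f : J → FA J) (j : J) : der φ f (gn j) = f j := by
  have := onW_wd (dl φ f) [j]
  simpa [dl, der] using this

@[simp] theorem der_one (φ : FA J →ₐ[ℂ] FA J) (f : J → FA J) : der φ f 1 = 0 := by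
  have := onW_wd (dl φ f) []
  simpa [dl, der] using this

/-- `Φ` is homogeneous of degree `α - β` -/
def Shift (c : J → I) (Φ : FA J →ₗ[ℂ] FA J) (α β : I →₀ ℕ) : Prop :=
  ∀ d, ∀ x ∈ G c d, Φ x ∈ ⨆ d' : {d' // d' + β = d + α}, G c d'.1

omit [Fintype I] [DecidableEq I] in
theorem Shift.mem {Φ : FA J →ₗ[ℂ] FA J} {α β : I →₀ ℕ} (h : Shift c Φ α β) {d d' : I →₀ ℕ}
    (e : d' + β = d + α) {x : FA J} (hx : x ∈ G c d) : Φ x ∈ G c d' := by
  refine iSup_ind LinearMap.id ?_ _ (h d x hx)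
  rintro ⟨k, hk⟩ y hy
  have : k = d' := add_right_cancel (hk.trans e.symm)
  exact this ▸ hy

theorem Shift.th {Φ : FA J →ₗ[ℂ] FA J} {α β : I →₀ ℕ} (h : Shift c Φ α β) (x : FA J) :
    th par c (Φ x) = (-1 : ℂ) ^ (pd par α + pd par β) • Φ (th par c x) := by
  have : (H102Z.Lcs.th par c).toLinearMap.comp Φ =
      (-1 : ℂ) ^ (pd par α + pd par β) • Φ.comp (H102Z.Lcs.th par c).toLinearMap := by
    refine wd_ext fun l => ?_
    have := iSup_ind ((H102Z.Lcs.th par c).toLinearMap -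
      ((-1 : ℂ) ^ (pd par α + pd par β) * (-1) ^ pd par (deg c l)) • LinearMap.id) (N := ⊥) ?_ _
      (h _ _ (wd_mem_G l))
    · simpa [sub_eq_zero, th_wd, smul_smul] using this
    · rintro ⟨k, hk⟩ y hy
      have e := congrArg (pd par) hk
      rw [pd_add, pd_add] at e
      have : (-1 : ℂ) ^ pd par k = (-1 : ℂ) ^ (pd par α + pd par β) * (-1) ^ pd par (deg c l) := by
        rw [← pow_add, show pd par α + pd par β + pd par (deg c l) = pd par k + 2 * pd par β by omega,
          pow_add, pow_mul]; simp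
      simp [th_of_mem y hy, this]
  exact LinearMap.congr_fun this x

omit [Fintype I] [DecidableEq I] in
theorem pr_shift {Φ : FA J →ₗ[ℂ] FA J} {α : I →₀ ℕ}
    (h : ∀ d, ∀ x ∈ G c d, Φ x ∈ G c (d + α)) (d : I →₀ ℕ) (x : FA J) :
    pr c (d + α) (Φ x) = Φ (pr c d x) := by
  have : (pr c (d + α)).comp Φ = Φ.comp (pr c d) := by
    refine wd_ext fun l => ?_
    by_cases e : deg c l = d
    · have := wd_mem_G (c := c) l
      rw [e] at this
      simp [pr_of_mem _ this, pr_of_mem _ (h _ _ this)]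
    · have := wd_mem_G (c := c) l
      simp [pr_of_ne e _ this, pr_of_ne (fun h' => e (add_right_cancel h')) _ (h _ _ this)]
  exact LinearMap.congr_fun this x

omit [Fintype I] [DecidableEq I] in
theorem shift_der {φ : FA J →ₐ[ℂ] FA J} (hφ : ∀ j, φ (gn j) ∈ G c (Finsupp.single (c j) 1))
    {f : J → FA J} {α β : I →₀ ℕ}
    (hf : ∀ j, f j = 0 ∨ ∃ δ, δ + β = Finsupp.single (c j) 1 + α ∧ f j ∈ G c δ) :
    Shift c (der φ f) α β := by
  intro d
  refine G_ind (der φ f) ?_
  rintro l rfl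
  rw [der, onW_wd]
  induction l with
  | nil => simp [dl]
  | cons j l ih =>
    rw [dl]
    refine add_mem ?_ ?_
    · rcases hf j with h | ⟨δ, h1, h2⟩
      · simp [h]
      · refine mem_iSup_of_mem ⟨δ + deg c l, ?_⟩ (G_mul h2 (wd_mem_G l))
        rw [deg_cons, add_right_comm, h1]; abel
    · refine iSup_ind (LinearMap.mul ℂ _ (φ (gn j))) ?_ _ ih
      rintro ⟨k, hk⟩ y hy
      refine mem_iSup_of_mem ⟨Finsupp.single (c j) 1 + k, ?_⟩ (G_mul (hφ j) hy)
      rw [deg_cons, add_assoc, hk]; abel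

/-! ### renaming letters -/

/-- renaming the letters -/
def ren (g : J → J') : FA J →ₐ[ℂ] FA J' := FreeAlgebra.lift ℂ fun j => gn (g j)

@[simp] theorem ren_gn (g : J → J') (j : J) : ren g (gn j) = gn (g j) := by simp [ren]

theorem ren_wd (g : J → J') (l : List J) : ren g (wd l) = wd (l.map g) := by
  induction l with
  | nil => simp
  | cons j l ih => simp [ih]

omit [Fintype I] [DecidableEq I] in
theorem ren_mem_G {g : J → J'} (hg : ∀ j, c' (g j) = c j) {d : I →₀ ℕ} :
    ∀ x ∈ G c d, ren g x ∈ G c' d := by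
  refine G_ind (ren g).toLinearMap ?_
  rintro l rfl
  have : deg c' (l.map g) = deg c l := by simp [deg, Function.comp_def, hg]
  simpa [ren_wd, this] using wd_mem_G (c := c') (l.map g)

omit [Fintype I] [DecidableEq I] in
theorem ren_th {g : J → J'} (hg : ∀ j, c' (g j) = c j) (a : FA J) :
    ren g (th par c a) = th par c' (ren g a) := by
  have : (ren g).comp (th par c) = (th par c').comp (ren g) := by
    ext j
    by_cases h : par (c j) <;> simp [th_gn, h, hg]
  exact DFunLike.congr_fun this a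

end H102Z.Lcs
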