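import Pool.Agent.H102Z.Lcs.Super

/-! Chains of brackets, the ideal `M₃`. -/

noncomputable section

namespace H102Z.Lcs

open Submodule

variable {R : Type*} [Ring R] [Algebra ℂ R] {θ : R →ₐ[ℂ] R}

/-- Iterated brackets of elements of `T` applied to `W`. -/
def Ch (θ : R →ₐ[ℂ] R) (T W : Submodule ℂ R) : ℕ → Submodule ℂ R
  | 0 => W
  | j + 1 => map₂ (br θ) T (Ch θ T W j)

theorem LC_eq_Ch (j : ℕ) : LC θ j = Ch θ ⊤ ⊤ j := by
  induction j with
  | zero => rfl
  | succ j ih => simp only [LC, Ch, ih]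

theorem br_mem_Ch {T W : Submodule ℂ R} {j : ℕ} {a w : R} (ha : a ∈ T) (hw : w ∈ Ch θ T W j) :
    br θ a w ∈ Ch θ T W (j + 1) := apply_mem_map₂ _ ha hw

theorem Ch_mono {T T' W W' : Submodule ℂ R} (hT : T ≤ T') (hW : W ≤ W') (j : ℕ) :
    Ch θ T W j ≤ Ch θ T' W' j := by
  induction j with
  | zero => exact hW
  | succ j ih => exact map₂_le_map₂ hT ih

theorem Ch_le_LC (T W : Submodule ℂ R) (j : ℕ) : Ch θ T W j ≤ LC θ j := by
  rw [LC_eq_Ch]; exact Ch_mono le_top le_top j

theorem θ_mem_Ch {T W : Submodule ℂ R} (hT : ∀ a ∈ T, θ a ∈ T) (hW : ∀ a ∈ W, θ a ∈ W) (j : ℕ) :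
    ∀ w ∈ Ch θ T W j, θ w ∈ Ch θ T W j := by
  induction j with
  | zero => exact hW
  | succ j ih =>
    refine map₂_ind θ.toLinearMap ?_
    intro a ha b hb
    simpa [θ_br] using br_mem_Ch (hT a ha) (ih b hb)

theorem br_swap_even {l : R} (h : θ l = l) (w : R) : br θ w l = -br θ l w := by
  rw [br_even' h, br_even h]; abel

variable (hθ : ∀ a, θ (θ a) = a)
include hθ

theorem br_swap_odd {l : R} (h : θ l = -l) (w : R) : br θ w l = -br θ l (θ w) := by
  rw [br_odd' h, br_odd h, hθ]; abel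

theorem br_Ch_Ch {T W : Submodule ℂ R} (hT : ∀ a ∈ T, θ a ∈ T) (i : ℕ) :
    ∀ j, ∀ w ∈ Ch θ T W j, ∀ l ∈ Ch θ T T i, br θ l w ∈ Ch θ T W (i + j + 1) := by
  induction i with
  | zero => intro j w hw l hl; simpa using br_mem_Ch (T := T) hl hw
  | succ i ih =>
    intro j w hw
    refine map₂_ind ((br θ).flip w) ?_
    refine hom_ind hθ hT (fun a => ∀ b ∈ Ch θ T T i, (br θ).flip w (br θ a b) ∈ _) ?_ ?_
    · intro p a ha hp
      refine hom_ind hθ (θ_mem_Ch hT hT i) (fun b => (br θ).flip w (br θ a b) ∈ _) ?_ ?_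
      · intro q b hb hq
        rw [LinearMap.flip_apply, jacobi hθ hp hq]
        refine sub_mem ?_ (zsmul_mem ?_ _)
        · have := br_mem_Ch ha (ih j w hw b hb)
          rwa [show i + 1 + j + 1 = i + j + 1 + 1 by ring]
        · have := ih (j + 1) _ (br_mem_Ch ha hw) b hb
          rwa [show i + 1 + j + 1 = i + (j + 1) + 1 by ring]
      · intro b c hb hc
        simpa only [map_add] using add_mem hb hc
    · intro a b ha hb c hc
      simpa only [map_add, LinearMap.add_apply] using add_mem (ha c hc) (hb c hc)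

theorem br_LC_LC {i j : ℕ} {l w : R} (hl : l ∈ LC θ i) (hw : w ∈ LC θ j) :
    br θ l w ∈ LC θ (i + j + 1) := by
  rw [LC_eq_Ch] at *
  exact br_Ch_Ch hθ (T := ⊤) (fun _ _ => trivial) i j w hw l hl

/-- swapping the arguments of a bracket -/
theorem br_swap_mem {N P K : Submodule ℂ R} (hN : ∀ a ∈ N, θ a ∈ N) (hP : ∀ a ∈ P, θ a ∈ P)
    (h : ∀ l ∈ N, ∀ w ∈ P, br θ l w ∈ K) : ∀ l ∈ N, ∀ w ∈ P, br θ w l ∈ K := by
  refine hom_ind hθ hN (fun l => ∀ w ∈ P, br θ w l ∈ K) ?_ ?_
  · intro p l hl hp w hw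
    cases p
    · simp only [Hm, Bool.false_eq_true, if_false] at hp
      rw [br_swap_even hp]; exact neg_mem (h l hl w hw)
    · simp only [Hm, if_true] at hp
      rw [br_swap_odd hθ hp]; exact neg_mem (h l hl _ (hP w hw))
  · intro a b ha hb w hw
    simpa only [map_add] using add_mem (ha w hw) (hb w hw)

omit hθ in
/-- The two-sided ideal generated by `L₃`. -/
def M3 (θ : R →ₐ[ℂ] R) : Submodule ℂ R := map₂ (LinearMap.mul ℂ R) ⊤ (LC θ 2)

omit hθ in
theorem mul_mem_M3' (u : R) {l : R} (hl : l ∈ LC θ 2) : u * l ∈ M3 θ :=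
  apply_mem_map₂ (LinearMap.mul ℂ R) trivial hl

omit hθ in
theorem LC2_le_M3 : LC θ 2 ≤ M3 θ := fun l hl => by simpa using mul_mem_M3' 1 hl

omit hθ in
theorem M3_left (u : R) {m : R} (hm : m ∈ M3 θ) : u * m ∈ M3 θ := by
  refine map₂_ind (LinearMap.mul ℂ R u) ?_ m hm
  intro a _ l hl
  simpa [mul_assoc] using mul_mem_M3' (u * a) hl

theorem M3_right {m : R} (hm : m ∈ M3 θ) (u : R) : m * u ∈ M3 θ := by
  refine map₂_ind ((LinearMap.mul ℂ R).flip u) ?_ m hm
  intro a _ l hl
  have h1 : l * u = br θ l u + (1 / 2 : ℂ) • (u * l + u * θ l + θ u * l - θ u * θ l) := by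
    rw [br_apply]; abel
  have h2 : l * u ∈ M3 θ := by
    rw [h1]
    have hl' := θ_mem_LC 2 l hl
    refine add_mem (LC2_le_M3 (LC_succ_le 2 ?_)) (smul_mem _ _ (sub_mem (add_mem (add_mem
      (mul_mem_M3' _ hl) (mul_mem_M3' _ hl')) (mul_mem_M3' _ hl)) (mul_mem_M3' _ hl')))
    simpa using br_LC_LC hθ hl (mem_LC_zero u)
  simpa [mul_assoc] using M3_left a h2

omit hθ in
theorem map_mem_M3 {S : Type*} [Ring S] [Algebra ℂ S] {θ' : S →ₐ[ℂ] S} (φ : R →ₐ[ℂ] S)
    (h : ∀ a, φ (θ a) = θ' (φ a)) : ∀ w ∈ M3 θ, φ w ∈ M3 θ' := by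
  refine map₂_ind φ.toLinearMap ?_
  intro a _ l hl
  simpa using mul_mem_M3' _ (map_mem_LC φ h 2 l hl)

omit hθ in
theorem θ_mem_M3 : ∀ w ∈ M3 θ, θ w ∈ M3 θ := map_mem_M3 θ (fun _ => rfl)

theorem br_mul_br_br (e u c f g : R) : br θ e (u * br θ c (br θ f g)) ∈ LC θ 2 := by
  induction e using hom_ind' hθ with
  | hadd a b ha hb => simpa only [map_add, LinearMap.add_apply] using add_mem ha hb
  | h pe e he =>
  induction u using hom_ind' hθ with
  | hadd a b ha hb => simpa only [map_add, LinearMap.add_apply, add_mul] using add_mem ha hb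
  | h pu u hu =>
  induction c using hom_ind' hθ with
  | hadd a b ha hb => simpa only [map_add, LinearMap.add_apply, mul_add] using add_mem ha hb
  | h pc c hc =>
  induction f using hom_ind' hθ with
  | hadd a b ha hb => simpa only [map_add, LinearMap.add_apply, mul_add] using add_mem ha hb
  | h pf f hf =>
  induction g using hom_ind' hθ with
  | hadd a b ha hb => simpa only [map_add, LinearMap.add_apply, mul_add] using add_mem ha hb
  | h pg g hg =>
  rw [idH hθ he hu hc hf hg]
  repeat' refine add_mem ?_ ?_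
  all_goals exact zsmul_mem (br_mem_LC2 _ _ _) _

theorem br_M3 (e : R) : ∀ m ∈ M3 θ, br θ e m ∈ LC θ 2 := by
  refine map₂_ind (br θ e) ?_
  intro u _
  refine map₂_ind ((br θ e).comp (LinearMap.mul ℂ R u)) ?_
  intro c _
  refine map₂_ind (((br θ e).comp (LinearMap.mul ℂ R u)).comp (br θ c)) ?_
  intro f _ g _
  exact br_mul_br_br hθ e u c f g

theorem M3_br (j : ℕ) : ∀ m ∈ M3 θ, ∀ w ∈ LC θ j, br θ m w ∈ LC θ (j + 2) := by
  have h0 : ∀ e, ∀ m ∈ M3 θ, br θ m e ∈ LC θ 2 := fun e m hm =>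
    br_swap_mem hθ (N := ⊤) (fun _ _ => trivial) θ_mem_M3 (fun l _ w hw => br_M3 hθ l w hw) e trivial m hm
  induction j with
  | zero => intro m hm w _; exact h0 w m hm
  | succ j ih =>
    refine hom_ind hθ θ_mem_M3 (fun m => ∀ w ∈ LC θ (j + 1), br θ m w ∈ LC θ (j + 1 + 2)) ?_ ?_
    · intro p m hm hp
      refine map₂_ind (br θ m) ?_
      intro e _ w hw
      induction e using hom_ind' hθ with
      | hadd a b ha hb =>
        simpa only [map_add, LinearMap.add_apply] using add_mem (ha trivial) (hb trivial)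
      | h q e hq =>
        have := jacobi hθ hp hq w
        rw [eq_sub_iff_add_eq] at this
        rw [← this]
        refine add_mem ?_ (zsmul_mem (br_mem_LC _ (ih m hm w hw)) _)
        have := br_LC_LC hθ (h0 e m hm) hw
        rwa [show 2 + j + 1 = j + 1 + 2 by ring] at this
    · intro a b ha hb w hw
      simpa only [map_add, LinearMap.add_apply] using add_mem (ha w hw) (hb w hw)

omit hθ in
/-- `c ↦ z c + c z` -/
def mz (z : R) : R →ₗ[ℂ] R := LinearMap.mul ℂ R z + (LinearMap.mul ℂ R).flip z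

omit hθ in
theorem mz_apply (z c : R) : mz z c = z * c + c * z := rfl

/-- two occurrences of an even element -/
theorem even_mem {x : R} (hx : θ x = x) (a b e : R) :
    a * x * b * x * e ∈ LinearMap.range (mz x) ⊔ M3 θ := by
  set D : R → R := fun c => x * c - c * x with hD
  have hDD : ∀ c, D (D c) ∈ M3 θ := fun c => by
    have := LC2_le_M3 (br_mem_LC2 (θ := θ) x x c)
    rwa [br_even hx, br_even hx] at this
  have h2 : ∀ c b, D c * D b ∈ M3 θ := fun c b => by
    have : D c * D b = (1 / 2 : ℂ) • (D (D (c * b)) - D (D c) * b - c * D (D b)) := by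
      simp only [hD, mul_sub, sub_mul, mul_assoc]; module
    rw [this]
    exact smul_mem _ _ (sub_mem (sub_mem (hDD _) (M3_right hθ (hDD _) _)) (M3_left _ (hDD _)))
  have h3 : ∀ p c q b r, p * D c * q * D b * r ∈ M3 θ := fun p c q b r => by
    have : p * D c * q * D b * r = p * (D (c * q) * D b - c * (D q * D b)) * r := by
      simp only [hD, mul_sub, sub_mul, mul_assoc]; abel
    rw [this]
    exact M3_right hθ (M3_left _ (sub_mem (h2 _ _) (M3_left _ (h2 _ _)))) _
  set N := LinearMap.range (mz x) ⊔ M3 θ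
  have hN : ∀ u v, u * x * v - (1 / 2 : ℂ) • (u * D v - D u * v) ∈ N := fun u v => by
    have : u * x * v - (1 / 2 : ℂ) • (u * D v - D u * v) = mz x ((1 / 2 : ℂ) • (u * v)) := by
      simp only [hD, mz_apply, mul_sub, sub_mul, mul_assoc, mul_smul_comm, smul_mul_assoc]; module
    rw [this]; exact mem_sup_left (LinearMap.mem_range_self _ _)
  have hM : ∀ m ∈ M3 θ, m ∈ N := fun m hm => mem_sup_right hm
  have h4 : ∀ p u q w, p * D u * q * x * w ∈ N := fun p u q w => by
    have := add_mem (hN (p * D u * q) w) (smul_mem N (1 / 2 : ℂ) (sub_mem (hM _ (h3 p u q w 1))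
      (add_mem (add_mem (hM _ (h3 1 p 1 u (q * w))) (hM _ (M3_right hθ (M3_left p (hDD u)) (q * w))))
        (hM _ (h3 p u 1 q w)))))
    convert this using 1
    simp only [hD, mul_sub, sub_mul, mul_assoc, mul_one, one_mul]; module
  have h5 : ∀ w q u p, w * x * q * D u * p ∈ N := fun w q u p => by
    have := add_mem (hN w (q * D u * p)) (smul_mem N (1 / 2 : ℂ) (sub_mem
      (add_mem (add_mem (hM _ (h3 w q 1 u p)) (hM _ (M3_right hθ (M3_left (w * q) (hDD u)) p)))
        (hM _ (h3 (w * q) u 1 p 1))) (hM _ (h3 1 w q u p))))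
    convert this using 1
    simp only [hD, mul_sub, sub_mul, mul_assoc, mul_one, one_mul]; module
  have := add_mem (hN a (b * x * e)) (smul_mem N (1 / 2 : ℂ) (sub_mem
    (add_mem (h4 a b 1 e) (h5 (a * b) 1 e 1)) (h4 1 a b e)))
  convert this using 1
  simp only [hD, mul_sub, sub_mul, mul_assoc, mul_one, one_mul]; module

/-- three occurrences of an odd element -/
theorem odd_mem {y : R} (hy : θ y = -y) (a b c e : R) :
    a * y * b * y * c * y * e ∈ LinearMap.range (mz (y * y)) ⊔ M3 θ := by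
  set N := LinearMap.range (mz (y * y)) ⊔ M3 θ
  have hM : ∀ m ∈ M3 θ, m ∈ N := fun m hm => mem_sup_right hm
  have hz : ∀ c, y * y * c - c * (y * y) ∈ M3 θ := fun c => by
    have := LC2_le_M3 (br_mem_LC2 (θ := θ) y y c)
    rw [br_odd hy, br_odd hy] at this
    convert this using 1
    simp only [map_sub, map_mul, hθ, hy, mul_sub, sub_mul, mul_assoc, neg_mul, mul_neg]; abel
  have h1 : ∀ p q, p * (y * y) * q ∈ N := fun p q => by
    have := add_mem (mem_sup_left (LinearMap.mem_range_self (mz (y * y)) ((1 / 2 : ℂ) • (p * q))) :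
      _ ∈ N) (smul_mem N (1 / 2 : ℂ) (sub_mem (hM _ (M3_left p (hz q))) (hM _ (M3_right hθ (hz p) q))))
    convert this using 1
    simp only [mz_apply, mul_sub, sub_mul, mul_assoc, mul_smul_comm, smul_mul_assoc]; module
  have h2 : ∀ b p c q, p * br θ y b * br θ y c * q ∈ N := by
    intro b
    induction b using hom_ind' hθ with
    | hadd a b ha hb =>
      intro p c q
      simpa only [map_add, mul_add, add_mul] using add_mem (ha p c q) (hb p c q)
    | h i b hb =>
      intro p c q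
      have e1 := hM _ (M3_right hθ (M3_left p (LC2_le_M3 (br_mem_LC2 (θ := θ) b y (y * c)))) q)
      have e2 := hM _ (M3_right hθ (M3_left (p * y) (LC2_le_M3 (br_mem_LC2 (θ := θ) b y c))) q)
      cases i
      · simp only [Hm, Bool.false_eq_true, if_false] at hb
        have := sub_mem (add_mem e1 e2) (smul_mem N (2 : ℂ) (sub_mem (h1 (p * b) (c * q))
          (h1 p (c * b * q))))
        convert this using 1
        simp only [br_odd hy, br_even hb, hb, map_sub, map_mul, hθ, hy, mul_sub, sub_mul, mul_assoc,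
          neg_mul, mul_neg]
        module
      · simp only [Hm, if_true] at hb
        have := add_mem (sub_mem e2 e1) (smul_mem N (2 : ℂ) (sub_mem (h1 (p * b) (c * q))
          (h1 p (θ c * b * q))))
        convert this using 1
        simp only [br_odd hy, br_odd hb, hb, map_sub, map_mul, hθ, hy, mul_sub, sub_mul, mul_assoc,
          neg_mul, mul_neg, map_neg, neg_neg]
        module
  have := add_mem (add_mem (h2 b a c (y * e)) (h1 (a * br θ y b * θ c) e)) (h1 (a * θ b) (c * y * e))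
  convert this using 1
  simp only [br_odd hy, mul_sub, sub_mul, mul_assoc]
  abel

end H102Z.Lcs
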