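import Mathlib

/-! Linear algebra and numerical lemmas. -/

noncomputable section

set_option linter.unusedSectionVars false

namespace H102Z.Lcs

open Submodule Finsupp

section lin
variable {V : Type*} [AddCommGroup V] [Module ℂ V]

theorem finite_bad {P P' K : Submodule ℂ V} [FiniteDimensional ℂ P'] {Y Z : V →ₗ[ℂ] V}
    (hY : ∀ x ∈ P, Y x ∈ P') (hZ : ∀ x ∈ P, Z x ∈ P') (hs : P' ≤ P.map Z ⊔ K) :
    {ρ : ℂ | ¬ P' ≤ P.map (Y + ρ • Z) ⊔ K}.Finite := by
  set Q := P'.map K.mkQ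
  let Zb : P →ₗ[ℂ] Q := ((K.mkQ.comp Z).domRestrict P).codRestrict Q
    fun x => mem_map_of_mem (hZ x x.2)
  let Yb : P →ₗ[ℂ] Q := ((K.mkQ.comp Y).domRestrict P).codRestrict Q
    fun x => mem_map_of_mem (hY x x.2)
  have hZs : LinearMap.range Zb = ⊤ := by
    rw [eq_top_iff]
    rintro ⟨_, v, hv, rfl⟩ _
    obtain ⟨_, ⟨u, hu, rfl⟩, k, hk, e⟩ := mem_sup.1 (hs hv)
    refine ⟨⟨u, hu⟩, Subtype.ext ?_⟩
    have : K.mkQ k = 0 := (Submodule.Quotient.mk_eq_zero K).2 hk
    simp only [Zb, LinearMap.codRestrict_apply, LinearMap.domRestrict_apply, LinearMap.comp_apply,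
      ← e, map_add, this, add_zero]
  obtain ⟨r, hr⟩ := Zb.exists_rightInverse_of_surjective hZs
  let f : Module.End ℂ Q := Yb.comp r
  refine ((Module.End.finite_hasEigenvalue f).image fun μ => -μ).subset fun ρ hρ => ?_
  refine ⟨-ρ, ?_, neg_neg ρ⟩
  by_contra hne
  apply hρ
  have hinj : Function.Injective (f + ρ • (LinearMap.id : Q →ₗ[ℂ] Q)) := by
    rw [← LinearMap.ker_eq_bot, eq_bot_iff]
    intro x hx
    by_contra hx0
    refine hne (Module.End.hasEigenvalue_of_hasEigenvector (x := x) ⟨?_, hx0⟩)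
    rw [Module.End.mem_eigenspace_iff]
    have : f x + ρ • x = 0 := hx
    rw [neg_smul]; exact eq_neg_of_add_eq_zero_left this
  have hsur := LinearMap.injective_iff_surjective.1 hinj
  intro v hv
  obtain ⟨x, hx⟩ := hsur ⟨K.mkQ v, mem_map_of_mem hv⟩
  have h1 : Zb (r x) = x := LinearMap.congr_fun hr x
  have h2 : Yb (r x) + ρ • Zb (r x) = ⟨K.mkQ v, mem_map_of_mem hv⟩ := by rw [h1]; exact hx
  have h3 : K.mkQ ((Y + ρ • Z) (r x)) = K.mkQ v := by
    have := congrArg Subtype.val h2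
    simpa [Yb, Zb] using this
  have h4 : v - (Y + ρ • Z) (r x) ∈ K := (Submodule.Quotient.eq K).1 h3.symm
  exact mem_sup.2 ⟨_, mem_map_of_mem (r x).2, _, h4, by abel⟩

variable {I : Type} [Fintype I] [DecidableEq I]

theorem finite_box (M : ℕ) : {d : I →₀ ℕ | ∀ i, d i < M}.Finite := by
  refine (Set.finite_Iic (equivFunOnFinite.symm fun _ : I => M)).subset fun d hd => ?_
  intro i
  simpa using (hd i).le

theorem surj_Y (P : (I →₀ ℕ) → Submodule ℂ V) [∀ d, FiniteDimensional ℂ (P d)] (K : Submodule ℂ V)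
    (Z : I → V →ₗ[ℂ] V) (Y : V →ₗ[ℂ] V) (κ : I → ℕ) (hκ : ∀ i, 1 ≤ κ i ∧ κ i ≤ 2) (s : I) (N : ℕ)
    (hZP : ∀ i d, ∀ x ∈ P d, Z i x ∈ P (d + single i (κ i)))
    (hYP : ∀ d, ∀ x ∈ P d, Y x ∈ P (d + single s (κ s)))
    (hZK : ∀ i, ∀ x ∈ K, Z i x ∈ K)
    (hsurj : ∀ i d, N ≤ d i → P (d + single i (κ i)) ≤ (P d).map (Z i) ⊔ K)
    (hZZ : ∀ i d, ∀ x ∈ P d, Z s (Z i x) - Z i (Z s x) ∈ K)
    (hYZ : ∀ i, i ≠ s → ∀ d, ∀ x ∈ P d, Y (Z i x) - Z i (Y x) ∈ K)
    (hYZs : ∀ d, ∀ x ∈ P d, Y (Z s x) - Z s (Y x) - ((κ s : ℂ) / 2) • Z s (Z s x) ∈ K) :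
    ∃ N', ∀ d, N' ≤ d s → P (d + single s (κ s)) ≤ (P d).map Y ⊔ K := by
  let Good : (I →₀ ℕ) → ℂ → Prop := fun d ρ => P (d + single s (κ s)) ≤ (P d).map (Y + ρ • Z s) ⊔ K
  have step : ∀ i d (ρ ρ' : ℂ), N ≤ d i → Good d ρ →
      (∀ x ∈ P d, (Y + ρ' • Z s) (Z i x) - Z i ((Y + ρ • Z s) x) ∈ K) →
      Good (d + single i (κ i)) ρ' := by
    intro i d ρ ρ' hd hg hc v hv
    rw [add_right_comm] at hv
    have hd' : N ≤ (d + single s (κ s)) i := by simp only [Finsupp.add_apply]; omega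
    obtain ⟨_, ⟨u, hu, rfl⟩, k, hk, rfl⟩ := mem_sup.1 (hsurj i _ hd' hv)
    obtain ⟨_, ⟨x, hx, rfl⟩, k', hk', rfl⟩ := mem_sup.1 (hg hu)
    refine mem_sup.2 ⟨_, mem_map_of_mem (hZP i d x hx), _,
      add_mem (sub_mem (hZK i k' hk') (hc x hx)) hk, ?_⟩
    rw [map_add]; abel
  have hfin : {q : ℕ | ∃ d : I →₀ ℕ, (∀ i, d i < N + 2) ∧ N ≤ d s ∧
      ¬ Good d (q * ((κ s : ℂ) / 2))}.Finite := by
    have hne : ((κ s : ℂ) / 2) ≠ 0 := by
      have := (hκ s).1
      have : (κ s : ℂ) ≠ 0 := by exact_mod_cast (by omega : κ s ≠ 0)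
      exact div_ne_zero this two_ne_zero
    have : ∀ d : I →₀ ℕ, {q : ℕ | N ≤ d s ∧ ¬ Good d (q * ((κ s : ℂ) / 2))}.Finite := by
      intro d
      by_cases hd : N ≤ d s
      · have h1 := finite_bad (hYP d) (hZP s d) (hsurj s d hd)
        have h2 := h1.preimage (f := fun q : ℕ => (q : ℂ) * ((κ s : ℂ) / 2))
          (fun a _ b _ h => by exact_mod_cast mul_right_cancel₀ hne h)
        exact h2.subset fun q hq => hq.2
      · simp [hd]
    refine ((finite_box (I := I) (N + 2)).biUnion fun d _ => this d).subset ?_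
    rintro q ⟨d, h1, h2, h3⟩
    exact Set.mem_biUnion (x := d) h1 ⟨h2, h3⟩
  obtain ⟨q₀, hq₀⟩ := hfin.bddAbove
  have main : ∀ n, ∀ d : I →₀ ℕ, ∑ i, d i = n → ∀ q : ℕ, N ≤ d s →
      N + 2 + 2 * q₀ + 2 ≤ d s + κ s * q → Good d (q * ((κ s : ℂ) / 2)) := by
    intro n
    induction n using Nat.strong_induction_on with
    | _ n ih =>
    intro d hn q h1 h2
    by_cases hb : ∀ i, d i < N + 2
    · by_contra hg
      have : q ≤ q₀ := hq₀ ⟨d, hb, h1, hg⟩
      have := hb s
      have : κ s * q ≤ 2 * q₀ := Nat.mul_le_mul (hκ s).2 ‹_›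
      omega
    · push Not at hb
      obtain ⟨i, hi⟩ := hb
      have hk := hκ i
      obtain ⟨d', rfl⟩ : ∃ d', d = d' + single i (κ i) :=
        ⟨d - single i (κ i), (tsub_add_cancel_of_le (single_le_iff.2 (by omega))).symm⟩
      have hi' : N ≤ d' i := by simp only [Finsupp.add_apply, single_eq_same] at hi; omega
      have hlt : ∑ j, d' j < n := by
        rw [← hn]
        simp only [Finsupp.add_apply, Finset.sum_add_distrib, single_apply, Finset.sum_ite_eq,
          Finset.mem_univ, if_true]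
        omega
      by_cases his : i = s
      · subst his
        refine step i d' (((q + 1 : ℕ) : ℂ) * ((κ i : ℂ) / 2)) _ hi' (ih _ hlt d' rfl (q + 1) hi' ?_) ?_
        · simp only [Finsupp.add_apply, single_eq_same] at h2
          rw [mul_add]; omega
        · intro x hx
          convert hYZs d' x hx using 1
          simp only [LinearMap.add_apply, LinearMap.smul_apply, map_add, map_smul]
          push_cast
          module
      · have e : (d' + single i (κ i)) s = d' s := by simp [single_eq_of_ne (Ne.symm his)]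
        rw [e] at h1 h2
        refine step i d' _ _ hi' (ih _ hlt d' rfl q h1 h2) ?_
        intro x hx
        convert add_mem (hYZ i his d' x hx) (smul_mem K (q * ((κ s : ℂ) / 2)) (hZZ i d' x hx)) using 1
        simp only [LinearMap.add_apply, LinearMap.smul_apply, map_add, map_smul]
        module
  refine ⟨N + 2 + 2 * q₀ + 2, fun d hd => ?_⟩
  have := main _ d rfl 0 (by omega) (by omega)
  simpa [Good] using this

/-- the dimension of the image of `P` modulo `K` -/
def qd (K P : Submodule ℂ V) : ℕ := Module.finrank ℂ (P.map K.mkQ)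

theorem qd_eq (K P : Submodule ℂ V) [FiniteDimensional ℂ P] :
    (qd K P : ℤ) = (Module.finrank ℂ P : ℤ) - Module.finrank ℂ (P ⊓ K : Submodule ℂ V) := by
  have h := (K.mkQ.domRestrict P).finrank_range_add_finrank_ker
  rw [LinearMap.range_domRestrict, LinearMap.ker_domRestrict, ker_mkQ] at h
  have e : Module.finrank ℂ (comap P.subtype K) = Module.finrank ℂ (P ⊓ K : Submodule ℂ V) := by
    rw [(Submodule.equivMapOfInjective P.subtype P.injective_subtype _).finrank_eq,
      map_comap_subtype]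
  rw [qd, ← h, e]; push_cast; ring

theorem qd_le {K P P' : Submodule ℂ V} [FiniteDimensional ℂ P] {Y : V →ₗ[ℂ] V}
    (hK : ∀ x ∈ K, Y x ∈ K) (h : P' ≤ P.map Y ⊔ K) : qd K P' ≤ qd K P := by
  have : P'.map K.mkQ ≤ (P.map K.mkQ).map (K.mapQ K Y hK) := by
    rintro _ ⟨v, hv, rfl⟩
    obtain ⟨_, ⟨u, hu, rfl⟩, k, hk, rfl⟩ := mem_sup.1 (h hv)
    refine ⟨_, mem_map_of_mem hu, ?_⟩
    have : K.mkQ k = 0 := (Submodule.Quotient.mk_eq_zero K).2 hk
    rw [map_add, this, add_zero]; rfl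
  exact (finrank_mono this).trans (finrank_map_le _ _)

/-- the acyclicity count -/
theorem qd_split {K P P' : Submodule ℂ V} [FiniteDimensional ℂ P'] {D Q : V →ₗ[ℂ] V}
    (hD : ∀ x ∈ K, D x ∈ K) (hQ : ∀ x ∈ K, Q x ∈ K) (hDP : ∀ x ∈ P', D x ∈ P)
    (hQP : ∀ x ∈ P, Q x ∈ P') (hDD : ∀ x, D (D x) = 0) {c : ℂ} (hc : c ≠ 0)
    (hDQ : ∀ x ∈ P, D (Q x) + Q (D x) = c • x) :
    qd K P' = Module.finrank ℂ (P'.map K.mkQ ⊓ LinearMap.ker (K.mapQ K D hD) : Submodule ℂ _) +
      Module.finrank ℂ (P.map K.mkQ ⊓ LinearMap.ker (K.mapQ K D hD) : Submodule ℂ _) := by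
  set Db := K.mapQ K D hD
  set Qb := K.mapQ K Q hQ
  have h := (Db.domRestrict (P'.map K.mkQ)).finrank_range_add_finrank_ker
  rw [LinearMap.range_domRestrict, LinearMap.ker_domRestrict] at h
  have e : Module.finrank ℂ (comap (P'.map K.mkQ).subtype (LinearMap.ker Db)) =
      Module.finrank ℂ (P'.map K.mkQ ⊓ LinearMap.ker Db : Submodule ℂ _) := by
    rw [(Submodule.equivMapOfInjective (P'.map K.mkQ).subtype (injective_subtype _) _).finrank_eq,
      map_comap_subtype]
  have e2 : (P'.map K.mkQ).map Db = P.map K.mkQ ⊓ LinearMap.ker Db := by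
    apply le_antisymm
    · rintro _ ⟨_, ⟨v, hv, rfl⟩, rfl⟩
      refine ⟨⟨D v, hDP v hv, rfl⟩, ?_⟩
      show K.mkQ (D (D v)) = 0
      rw [hDD, map_zero]
    · rintro _ ⟨⟨v, hv, rfl⟩, h0⟩
      have h0' : K.mkQ (D v) = 0 := h0
      refine ⟨_, mem_map_of_mem (smul_mem _ c⁻¹ (hQP v hv)), ?_⟩
      show K.mkQ (D (c⁻¹ • Q v)) = K.mkQ v
      have h1 : K.mkQ (Q (D v)) = 0 := by
        show Qb (K.mkQ (D v)) = 0
        rw [h0', map_zero]
      have h2 : D (Q v) = c • v - Q (D v) := eq_sub_of_add_eq (hDQ v hv)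
      rw [map_smul, h2, map_smul, map_sub, h1, sub_zero, map_smul, smul_smul, inv_mul_cancel₀ hc,
        one_smul]
  rw [qd, ← h, e, e2, add_comm]

end lin

section num
variable {I : Type} [Fintype I] [DecidableEq I]

theorem dickson_mono (b : (I →₀ ℕ) → ℕ) (N : ℕ)
    (h : ∀ i d, N ≤ d i → b (d + single i 2) ≤ b d) :
    ∀ n, ∀ d d' : I →₀ ℕ, ∑ i, (d' i - d i) = n →
      (∀ i, d i = d' i ∨ (N ≤ d i ∧ d i ≤ d' i ∧ d i % 2 = d' i % 2)) → b d' ≤ b d := by
  intro n
  induction n using Nat.strong_induction_on with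
  | _ n ih =>
  intro d d' hn hr
  by_cases e : ∀ i, d i = d' i
  · rw [Finsupp.ext e]
  · push Not at e
    obtain ⟨i, hi⟩ := e
    have hi' := (hr i).resolve_left hi
    refine (ih _ ?_ (d + single i 2) d' rfl ?_).trans (h i d hi'.1)
    · rw [← hn]
      refine Finset.sum_lt_sum (fun j _ => ?_) ⟨i, Finset.mem_univ _, ?_⟩
      · simp only [Finsupp.add_apply]; omega
      · simp only [Finsupp.add_apply, single_eq_same]; omega
    · intro j
      by_cases hj : j = i
      · subst hj; simp only [Finsupp.add_apply, single_eq_same]; omega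
      · simpa [single_eq_of_ne hj] using hr j

theorem dickson (b : (I →₀ ℕ) → ℕ) (N : ℕ)
    (h : ∀ i d, N ≤ d i → b (d + single i 2) ≤ b d) (s : I) :
    ∃ N', ∀ d, N' ≤ d s → b (d + single s 2) = b d := by
  by_contra hne
  push Not at hne
  choose f hf1 hf2 using fun n => hne (N + n)
  let cl : (I →₀ ℕ) → I → Fin (N + 2) := fun d i =>
    if h : d i < N then ⟨d i, by omega⟩ else ⟨N + d i % 2, by omega⟩
  obtain ⟨g1, hg1⟩ := (Finite.wellQuasiOrdered (α := I → Fin (N + 2)) (· = ·)).exists_monotone_subseq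
    (fun n => cl (f n))
  obtain ⟨g2, hg2⟩ := (wellQuasiOrdered_le (α := I →₀ ℕ)).exists_monotone_subseq (fun n => f (g1 n))
  let F : ℕ → I →₀ ℕ := fun n => f (g1 (g2 n))
  have hrel : ∀ m n, m ≤ n → ∀ i, F m i = F n i ∨
      (N ≤ F m i ∧ F m i ≤ F n i ∧ F m i % 2 = F n i % 2) := by
    intro m n hmn i
    have h1 : cl (F m) i = cl (F n) i := congrFun (hg1 _ _ (g2.monotone hmn)) i
    have h2 : F m i ≤ F n i := hg2 m n hmn i
    simp only [cl] at h1
    split_ifs at h1 <;> simp only [Fin.mk.injEq] at h1 <;> omega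
  have hbig : ∀ n, N + n ≤ F n s := fun n =>
    le_trans (Nat.add_le_add_left ((g2.strictMono.le_apply).trans (g1.strictMono.le_apply)) N) (hf1 _)
  have hdec : ∀ m, ∃ n, b (F n) < b (F m) := by
    intro m
    refine ⟨m + F m s + 2, lt_of_le_of_lt
      (dickson_mono b N h _ (F m + single s 2) _ rfl fun i => ?_) ?_⟩
    · have := hrel m (m + F m s + 2) (by omega) i
      by_cases hi : i = s
      · subst hi
        have h1 := hbig m
        have h2 := hbig (m + F m i + 2)
        simp only [Finsupp.add_apply, single_eq_same]; omega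
      · simpa [single_eq_of_ne hi] using this
    · exact lt_of_le_of_ne (h s _ (le_trans (Nat.le_add_right _ _) (hbig m))) (hf2 _)
  have : ∀ k m, b (F m) ≠ k := by
    intro k
    induction k using Nat.strong_induction_on with
    | _ k ih =>
      intro m hm
      obtain ⟨n, hn⟩ := hdec m
      exact ih _ (hm ▸ hn) n rfl
  exact this _ 0 rfl

theorem alt_const (κ : ℕ → ℕ) (h : ∀ t, κ (t + 3) + κ (t + 2) = κ (t + 1) + κ t) :
    κ 2 = κ 0 := by
  have h2 : ∀ t n, (κ (t + 2 * n) : ℤ) = κ t + n * ((κ (t + 2) : ℤ) - κ t) := by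
    intro t n
    induction n generalizing t with
    | zero => simp
    | succ n ih =>
      have e1 := ih (t + 2)
      have e2 := h t
      have e3 := h (t + 1)
      rw [show t + 2 * (n + 1) = t + 2 + 2 * n by ring, e1]
      have : (κ (t + 2 + 2) : ℤ) - κ (t + 2) = κ (t + 2) - κ t := by
        have e3' : κ (t + 2 + 2) + κ (t + 3) = κ (t + 2) + κ (t + 1) := e3
        omega
      rw [this]; push_cast; ring
  have a0 := h2 0 (κ 0 + 1)
  have a1 := h2 1 (κ 1 + 1)
  have e := h 0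
  simp only [zero_add] at a0 e
  norm_num at a1
  by_contra hne
  rcases lt_or_gt_of_ne hne with hlt | hlt
  · have : (κ 2 : ℤ) - κ 0 ≤ -1 := by omega
    have h3 : (0 : ℤ) ≤ κ (2 * (κ 0 + 1)) := by positivity
    push_cast at a0
    nlinarith
  · have : (κ 3 : ℤ) - κ 1 ≤ -1 := by omega
    have h3 : (0 : ℤ) ≤ κ (1 + 2 * (κ 1 + 1)) := by positivity
    nlinarith

open MvPowerSeries in
theorem poly_of_stable (b : MvPowerSeries I ℤ) (N : ℕ)
    (h : ∀ s d, N ≤ d s → coeff (d + single s 1) b = coeff d b) :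
    ∃ p : MvPolynomial I ℤ, b * ∏ s : I, (1 - MvPowerSeries.X s) =
      (p : MvPowerSeries I ℤ) := by
  set F : MvPowerSeries I ℤ := b * ∏ s : I, (1 - MvPowerSeries.X s) with hF
  have key : ∀ (φ : MvPowerSeries I ℤ) (i : I) (d : I →₀ ℕ),
      coeff d (φ * (1 - MvPowerSeries.X i)) =
        coeff d φ - if single i 1 ≤ d then coeff (d - single i 1) φ else 0 := by
    intro φ i d
    rw [mul_sub, mul_one, map_sub, X_def, coeff_mul_monomial, mul_one]
  have hz : ∀ s (d : I →₀ ℕ), N < d s → coeff d F = 0 := by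
    intro s
    have : ∀ S : Finset I, s ∉ S → ∀ d : I →₀ ℕ, N < d s →
        coeff d (b * (1 - MvPowerSeries.X s) *
          ∏ i ∈ S, (1 - MvPowerSeries.X i)) = 0 := by
      intro S
      induction S using Finset.induction_on with
      | empty =>
        intro _ d hd
        have hle : single s 1 ≤ d := single_le_iff.2 (by omega)
        rw [Finset.prod_empty, mul_one, key, if_pos hle]
        have := h s (d - single s 1) (by simp; omega)
        rw [tsub_add_cancel_of_le hle] at this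
        exact sub_eq_zero.2 this
      | insert i S hi ih =>
        intro hs d hd
        have hs' : s ∉ S := fun h => hs (Finset.mem_insert_of_mem h)
        have hsi : s ≠ i := fun h => hs (h ▸ Finset.mem_insert_self _ _)
        rw [Finset.prod_insert hi, mul_comm (1 - MvPowerSeries.X i), ← mul_assoc, key, ih hs' d hd,
          ih hs' (d - single i 1) (by simpa [single_eq_of_ne hsi] using hd)]
        simp
    intro d hd
    rw [hF, ← Finset.mul_prod_erase _ _ (Finset.mem_univ s), ← mul_assoc]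
    exact this _ (Finset.notMem_erase _ _) d hd
  refine ⟨trunc' ℤ (equivFunOnFinite.symm fun _ : I => N) F, ?_⟩
  ext d
  rw [MvPolynomial.coeff_coe, coeff_trunc']
  split_ifs with hd
  · rfl
  · rw [Finsupp.le_def] at hd
    push Not at hd
    obtain ⟨s, hs⟩ := hd
    exact hz s d (by simpa using hs)

end num

end H102Z.Lcs
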