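import Pool.Agent.H102Z.Lcs.Mod

/-! Stability of the multigraded dimensions. -/

noncomputable section

set_option linter.unusedSectionVars false
set_option linter.unusedSimpArgs false

namespace H102Z.Lcs

open Submodule Finsupp

variable {I : Type} [Fintype I] [DecidableEq I] (par : I → Bool)

/-- the derivation `g ↦ g^(k+1)` -/
def Yd {J : Type} [DecidableEq J] (j0 : J) (k : ℕ) : FA J →ₗ[ℂ] FA J :=
  der (AlgHom.id ℂ _) fun j => if j = j0 then gn j0 ^ (k + 1) else 0

theorem Yd_mul {J : Type} [DecidableEq J] (j0 : J) (k : ℕ) (a b : FA J) :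
    Yd j0 k (a * b) = Yd j0 k a * b + a * Yd j0 k b := der_mul _ _ a b

theorem shift_Yd {J : Type} [DecidableEq J] (c : J → I) (j0 : J) (k : ℕ) :
    Shift c (Yd j0 k) (single (c j0) k) 0 := by
  refine shift_der (fun j => gn_mem_G j) fun j => ?_
  by_cases h : j = j0
  · subst h
    refine Or.inr ⟨single (c j) (k + 1), by rw [add_zero, ← single_add, add_comm], ?_⟩
    rw [if_pos rfl]
    induction k + 1 with
    | zero => simpa using one_mem_G
    | succ r ih => rw [pow_succ, single_add]; exact G_mul ih (gn_mem_G j)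
  · exact Or.inl (if_neg h)

variable (l s : I)

/-- on the algebra -/
abbrev YA : FA I →ₗ[ℂ] FA I := Yd s (kp par s)

/-- on the extended algebra -/
abbrev YX : FA (Option I) →ₗ[ℂ] FA (Option I) := Yd (some s) (kp par s)

theorem io_YA (a : FA I) : io (YA par s a) = YX par s (io a) :=
  der_comm io (fun j => by by_cases h : j = s <;> simp [h]) a

/-- substitution of a generator for the new letter -/
abbrev sig : FA (Option I) →ₐ[ℂ] FA I := ren (cl l)

theorem sig_YX (h : l ≠ s) (w : FA (Option I)) : sig l (YX par s w) = YA par s (sig l w) :=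
  der_comm (sig l) (fun o => by
    cases o with
    | none => simp [cl, h]
    | some j => by_cases h : j = s <;> simp [h, cl]) w

theorem sig_th (w : FA (Option I)) : sig l (tx par l w) = th par id (sig l w) :=
  ren_th (c := cl l) (c' := id) (g := cl l) (fun _ => rfl) w

theorem sig_G {d : I →₀ ℕ} {x : FA (Option I)} (hx : x ∈ G (cl l) d) : sig l x ∈ G id d :=
  ren_mem_G (c := cl l) (c' := id) (g := cl l) (fun _ => rfl) x hx

theorem th_YX (x : FA (Option I)) : tx par l (YX par s x) = YX par s (tx par l x) := by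
  rw [(shift_Yd (cl l) (some s) _).th, show cl l (some s) = s from rfl, pd_kp, one_smul]

theorem th_YA (x : FA I) : th par id (YA par s x) = YA par s (th par id x) := by
  rw [(shift_Yd id s _).th, show id s = s from rfl, pd_kp, one_smul]

theorem YX_tt : YX par s tt = 0 := by simp [Yd]

theorem YA_zz_ne {i : I} (h : i ≠ s) : YA par s (zz par i) = 0 := by
  unfold zz
  split_ifs
  · rw [Yd_mul]; simp [Yd, h]
  · simp [Yd, h]

theorem YA_zz : YA par s (zz par s) = (kp par s : ℂ) • (zz par s * zz par s) := by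
  unfold zz
  split_ifs with h
  · rw [Yd_mul]
    simp only [Yd, der_gn, if_true, kp, h, pow_succ, pow_zero, one_mul, mul_assoc]
    push_cast; module
  · simp [Yd, kp, h, pow_succ]

theorem YX_CL (j : ℕ) : ∀ x ∈ CL par l j, YX par s x ∈ CL par l j := by
  refine even_der_Ch (Yd_mul _ _) (th_YX par l s) ?_ ?_ j
  · rintro _ ⟨a, rfl⟩
    rw [AlgHom.toLinearMap_apply, ← io_YA]; exact io_mem _
  · refine WW_ind _ fun a b => ?_
    rw [Yd_mul, Yd_mul, YX_tt, ← io_YA, ← io_YA, mul_zero, add_zero]
    exact add_mem (mem_WW _ _) (mem_WW _ _)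

theorem bil_YZ (i : I) : Bil par l ((YX par s).comp (ZZ par i) - (ZZ par i).comp (YX par s)) := by
  have hb := bil_ZZ par l i
  refine ⟨fun a w => ?_, fun a w => ?_, fun w => ?_⟩
  · simp only [LinearMap.sub_apply, LinearMap.comp_apply, hb.left, Yd_mul, ← io_YA, map_add]
    noncomm_ring
  · simp only [LinearMap.sub_apply, LinearMap.comp_apply, hb.right, Yd_mul, ← io_YA, map_add]
    noncomm_ring
  · simp only [LinearMap.sub_apply, LinearMap.comp_apply, map_sub, th_YX, th_ZZ]

theorem Bil.comp {Φ Ψ : FA (Option I) →ₗ[ℂ] FA (Option I)} (h : Bil par l Φ) (h' : Bil par l Ψ) :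
    Bil par l (Φ.comp Ψ) :=
  ⟨fun a w => by simp only [LinearMap.comp_apply, h.left, h'.left],
    fun a w => by simp only [LinearMap.comp_apply, h.right, h'.right],
    fun w => by simp only [LinearMap.comp_apply, h.th, h'.th]⟩

theorem Bil.sub_smul {Φ Ψ : FA (Option I) →ₗ[ℂ] FA (Option I)} (h : Bil par l Φ) (h' : Bil par l Ψ)
    (r : ℂ) : Bil par l (Φ - r • Ψ) :=
  ⟨fun a w => by simp only [LinearMap.sub_apply, LinearMap.smul_apply, h.left, h'.left, mul_sub,
      mul_smul_comm],
    fun a w => by simp only [LinearMap.sub_apply, LinearMap.smul_apply, h.right, h'.right, sub_mul,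
      smul_mul_assoc],
    fun w => by simp only [LinearMap.sub_apply, LinearMap.smul_apply, map_sub, map_smul, h.th, h'.th]⟩

theorem YX_surj (j : ℕ) : ∃ N, ∀ d : I →₀ ℕ, N ≤ d s →
    CL par l (j + 1) ⊓ G (cl l) (d + single s (kp par s)) ≤
      (CL par l (j + 1) ⊓ G (cl l) d).map (YX par s) ⊔ LC (tx par l) (j + 2) := by
  have : ∀ d, FiniteDimensional ℂ (CL par l (j + 1) ⊓ G (cl l) d : Submodule ℂ _) :=
    fun d => finiteDimensional_of_le inf_le_right
  have he : ∀ i, tx par l (io (zz par i)) = io (zz par i) := fun i => by rw [← io_th, th_zz]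
  refine surj_Y (fun d => CL par l (j + 1) ⊓ G (cl l) d) (LC (tx par l) (j + 2)) (ZZ par)
    (YX par s) (kp par) (kp_bd par) s (4 * j + 7) ?_ ?_ ?_ ?_ ?_ ?_ ?_
  · exact fun i d x hx => ⟨ZZ_CL par l i _ x hx.1, ZZ_G par l i d x hx.2⟩
  · exact fun d x hx => ⟨YX_CL par l s _ x hx.1, (shift_Yd (cl l) (some s) _).mem (add_zero _) hx.2⟩
  · exact fun i => even_der_LC (ZZ_mul par i) (th_ZZ par l i) _
  · exact fun i d hd => ZZ_surj par l i j d hd
  · intro i d x hx
    have hb := ((bil_ZZ par l s).comp par l (bil_ZZ par l i)).sub_smul par l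
      ((bil_ZZ par l i).comp par l (bil_ZZ par l s)) 1
    refine (by simpa using hb.small par l · j x hx.1) ?_
    refine LC2_le_M3 ?_
    have := br_LC_LC th_th (br_mem_LC1 (θ := tx par l) (io (zz par i)) (io (zz par s))) (mem_LC_zero tt)
    convert this using 1
    rw [br_even (he i), br_even (by rw [map_sub, map_mul, map_mul, he, he])]
    simp only [LinearMap.sub_apply, LinearMap.smul_apply, LinearMap.comp_apply, ZZ_tt, map_add,
      ZZ_mul, ZZ_io, one_smul]
    noncomm_ring
  · intro i hi d x hx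
    refine (by simpa using (bil_YZ par l s i).small par l · j x hx.1) ?_
    simp only [LinearMap.sub_apply, LinearMap.comp_apply, ZZ_tt, map_add, Yd_mul, YX_tt, ← io_YA,
      YA_zz_ne par s hi]
    simp
  · intro d x hx
    have hb := (bil_YZ par l s s).sub_smul par l ((bil_ZZ par l s).comp par l (bil_ZZ par l s))
      ((kp par s : ℂ) / 2)
    refine (by simpa using hb.small par l · j x hx.1) ?_
    refine LC2_le_M3 ?_
    have := smul_mem _ ((kp par s : ℂ) / 2) (br_mem_LC2 (θ := tx par l) (io (zz par s)) (io (zz par s)) tt)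
    convert this using 1
    rw [br_even (he s), br_even (he s)]
    simp only [LinearMap.sub_apply, LinearMap.smul_apply, LinearMap.comp_apply, ZZ_tt, map_add,
      ZZ_mul, ZZ_io, Yd_mul, YX_tt, ← io_YA, YA_zz, map_smul, map_mul, map_zero, mul_add, add_mul,
      mul_sub, sub_mul, mul_assoc, smul_mul_assoc, mul_smul_comm, mul_zero, zero_mul]
    module

/-- polarization -/
def pol : FA (Option I) →ₗ[ℂ] FA (Option I) :=
  der (AlgHom.id ℂ _) fun o => if o = some l then tt else 0

theorem pol_mul (a b : FA (Option I)) : pol l (a * b) = pol l a * b + a * pol l b := der_mul _ _ a b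

theorem shift_pol : Shift (cl l) (pol l) 0 0 := by
  refine shift_der (fun j => gn_mem_G j) fun o => ?_
  by_cases h : o = some l
  · subst h
    exact Or.inr ⟨single l 1, rfl, by simpa using tt_G l⟩
  · exact Or.inl (if_neg h)

theorem th_pol (x : FA (Option I)) : tx par l (pol l x) = pol l (tx par l x) := by
  rw [(shift_pol l).th]; simp

theorem pol_WW (a : FA I) : pol l (io a) ∈ WW := by
  refine map_mem_of_wd ((pol l).comp io.toLinearMap) (fun u => ?_) a
  show pol l (io (wd u)) ∈ WW
  induction u with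
  | nil => simp [pol]
  | cons g u ih =>
    rw [wd_cons, map_mul, pol_mul]
    refine add_mem ?_ (WW_left _ _ ih)
    by_cases h : g = l
    · simpa [pol, h] using mem_WW 1 (wd u)
    · simp [pol, h]

theorem io_Ch (j : ℕ) : ∀ w ∈ LC (th par id) j, io w ∈ Ch (tx par l) TT TT j := by
  induction j with
  | zero => exact fun w _ => io_mem w
  | succ j ih =>
    refine map₂_ind io.toLinearMap fun a _ w hw => ?_
    rw [AlgHom.toLinearMap_apply, map_br io (io_th par l)]
    exact br_mem_Ch (io_mem a) (ih w hw)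

theorem pol_CL (j : ℕ) : ∀ w ∈ LC (th par id) j, pol l (io w) ∈ CL par l j := by
  induction j with
  | zero => exact fun w _ => pol_WW l w
  | succ j ih =>
    refine map₂_ind ((pol l).comp io.toLinearMap) fun a _ w hw => ?_
    rw [LinearMap.comp_apply, AlgHom.toLinearMap_apply, map_br io (io_th par l),
      even_der_br (pol_mul l) (th_pol par l)]
    refine add_mem ?_ (br_mem_Ch (io_mem a) (ih w hw))
    have hT := (isGr_TT l).th_mem (par := par)
    exact br_swap_mem th_th (θ_mem_Ch hT hT j) ((isGr_WW l).th_mem (par := par))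
      (fun u hu v hv => br_Ch_Ch th_th hT j 0 v hv u hu) _ (io_Ch par l j w hw) _ (pol_WW l a)

theorem sig_io (a : FA I) : sig l (io a) = a := by
  have : (sig l).comp io = AlgHom.id ℂ _ := by ext j; simp [cl]
  exact DFunLike.congr_fun this a

theorem sig_pol {d : I →₀ ℕ} : ∀ x ∈ G id d, sig l (pol l (io x)) = (d l : ℂ) • x := by
  refine G_eq ((sig l).toLinearMap.comp ((pol l).comp io.toLinearMap)) ((d l : ℂ) • LinearMap.id) ?_
  rintro u rfl
  show sig l (pol l (io (wd u))) = (deg id u l : ℂ) • wd u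
  induction u with
  | nil => simp [pol]
  | cons g u ih =>
    rw [wd_cons, map_mul, pol_mul, map_add, map_mul, map_mul, ih, sig_io, sig_io]
    by_cases h : g = l
    · simp [pol, h, cl, add_smul]
    · simp [pol, h, single_eq_of_ne (Ne.symm h)]

theorem one_letter {d : I →₀ ℕ} (hd : ∀ i, i ≠ s → d i = 0) {x : FA I} (hx : x ∈ G id d)
    (hx' : x ∈ LC (th par id) 2) : x = 0 := by
  let ρ : FA I →ₐ[ℂ] FA I := FreeAlgebra.lift ℂ fun i => if i = s then gn i else 0
  have h1 : ρ x = x := by
    refine G_eq ρ.toLinearMap LinearMap.id ?_ x hx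
    rintro u rfl
    show ρ (wd u) = wd u
    clear hx
    induction u with
    | nil => simp
    | cons g u ih =>
      have hg : g = s := by
        by_contra h
        simpa using hd g h
      rw [wd_cons, map_mul, ih fun i hi => by simpa [hg, single_eq_of_ne hi] using hd i hi]
      simp [ρ, hg]
  have h2 : ∀ a, ρ (th par id a) = th par id (ρ a) := by
    have : ρ.comp (th par id) = (th par id).comp ρ := by
      ext j
      by_cases h : j = s <;> by_cases h' : par j <;> simp [ρ, th_gn, h, h'] <;> simp_all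
    exact fun a => DFunLike.congr_fun this a
  have h3 : ∀ b, Commute (gn s) (ρ b) := by
    intro b
    induction b using FreeAlgebra.induction with
    | grade0 r => rw [AlgHom.commutes]; exact (Algebra.commutes r _).symm
    | grade1 i => by_cases h : i = s <;> simp [ρ, h]
    | mul a b ha hb => rw [map_mul]; exact ha.mul_right hb
    | add a b ha hb => rw [map_add]; exact ha.add_right hb
  have h4 : ∀ a b, Commute (ρ a) (ρ b) := by
    intro a b
    induction a using FreeAlgebra.induction with
    | grade0 r => rw [AlgHom.commutes]; exact Algebra.commutes r _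
    | grade1 i => by_cases h : i = s <;> simp [ρ, h, h3]
    | mul a c ha hc => rw [map_mul]; exact ha.mul_left hc
    | add a c ha hc => rw [map_add]; exact ha.add_left hc
  rw [← h1]
  refine (mem_bot ℂ).1 (map₂_ind ρ.toLinearMap (fun a _ => ?_) x hx')
  refine map₂_ind (ρ.toLinearMap.comp (br (th par id) a)) fun b _ c _ => ?_
  show ρ _ ∈ _
  rw [map_br ρ h2, br_even', (h4 _ _).eq, sub_self]
  · exact zero_mem _
  · rw [← h2]
    simp only [br_apply, map_sub, map_add, map_smul, map_mul, th_th, (h4 c _).eq,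
      (h4 (th par id c) _).eq]
    module

theorem YA_surj (j : ℕ) : ∃ N, ∀ d : I →₀ ℕ, N ≤ d s →
    LC (th par id) (j + 2) ⊓ G id (d + single s (kp par s)) ≤
      (LC (th par id) (j + 2) ⊓ G id d).map (YA par s) ⊔ LC (th par id) (j + 3) := by
  choose N hN using fun l => YX_surj par l s (j + 1)
  refine ⟨Finset.univ.sup N, fun d hd x hx => ?_⟩
  by_cases h : ∀ i, i ≠ s → d i = 0
  · rw [one_letter par s (fun i hi => by simpa [single_eq_of_ne hi] using h i hi) hx.2
      (LC_anti (by omega) hx.1)]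
    exact zero_mem _
  push Not at h
  obtain ⟨l, hl, hdl⟩ := h
  have h1 := hN l d ((Finset.le_sup (Finset.mem_univ l)).trans hd)
    ⟨pol_CL par l _ x hx.1, (shift_pol l).mem rfl (io_G l hx.2)⟩
  obtain ⟨_, ⟨v, hv, rfl⟩, k, hk, e⟩ := mem_sup.1 h1
  have e2 := congrArg (sig l) e
  rw [sig_pol l x hx.2, map_add, sig_YX par l s hl] at e2
  have hne : (((d + single s (kp par s)) l : ℕ) : ℂ) ≠ 0 := by
    simpa [single_eq_of_ne hl] using hdl
  rw [← smul_mem_iff _ hne, ← e2]
  exact add_mem (mem_sup_left (mem_map_of_mem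
    ⟨map_mem_LC (sig l) (sig_th par l) _ _ (Ch_le_LC _ _ _ hv.1), sig_G l hv.2⟩))
    (mem_sup_right (map_mem_LC (sig l) (sig_th par l) _ _ hk))

/-! ### odd derivations -/

theorem anti_mul {R : Type*} [Ring R] [Algebra ℂ R] {θ : R →ₐ[ℂ] R} (hθ : ∀ a, θ (θ a) = a)
    {D Q : R →ₗ[ℂ] R} (hD : ∀ a b, D (a * b) = D a * b + θ a * D b)
    (hQ : ∀ a b, Q (a * b) = Q a * b + θ a * Q b) (hD' : ∀ a, θ (D a) = -D (θ a))
    (hQ' : ∀ a, θ (Q a) = -Q (θ a)) (a b : R) :
    D (Q (a * b)) + Q (D (a * b)) = (D (Q a) + Q (D a)) * b + a * (D (Q b) + Q (D b)) := by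
  simp only [hD, hQ, map_add, hD', hQ', hθ]; noncomm_ring

/-- the odd partial derivative -/
def DD : FA I →ₗ[ℂ] FA I := der (th par id) fun i => if i = s then 1 else 0

/-- the odd homotopy -/
def QQ : FA I →ₗ[ℂ] FA I := der (th par id) fun i => if i = l then gn s * gn l else 0

theorem DD_mul (a b : FA I) : DD par s (a * b) = DD par s a * b + th par id a * DD par s b :=
  der_mul _ _ a b

theorem QQ_mul (a b : FA I) : QQ par l s (a * b) = QQ par l s a * b + th par id a * QQ par l s b :=
  der_mul _ _ a b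

theorem shift_DD : Shift id (DD par s) 0 (single s 1) := by
  refine shift_der (fun j => th_mem_G (gn_mem_G j)) fun i => ?_
  by_cases h : i = s
  · subst h
    exact Or.inr ⟨0, by simp, by simpa using one_mem_G⟩
  · exact Or.inl (if_neg h)

theorem shift_QQ : Shift id (QQ par l s) (single s 1) 0 := by
  refine shift_der (fun j => th_mem_G (gn_mem_G j)) fun i => ?_
  by_cases h : i = l
  · subst h
    exact Or.inr ⟨single s 1 + single i 1, by simp [add_comm],
      by simpa using G_mul (gn_mem_G (c := id) s) (gn_mem_G (c := id) i)⟩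
  · exact Or.inl (if_neg h)

theorem th_DD (hs : par s = true) (x : FA I) : th par id (DD par s x) = -DD par s (th par id x) := by
  rw [(shift_DD par s).th]; simp [pd_single, hs]

theorem th_QQ (hs : par s = true) (x : FA I) :
    th par id (QQ par l s x) = -QQ par l s (th par id x) := by
  rw [(shift_QQ par l s).th]; simp [pd_single, hs]

theorem DD_DD (hs : par s = true) (x : FA I) : DD par s (DD par s x) = 0 := by
  have : (DD par s).comp (DD par s) + (DD par s).comp (DD par s) = 0 := by
    refine wd_ext fun u => ?_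
    show DD par s (DD par s (wd u)) + DD par s (DD par s (wd u)) = 0
    induction u with
    | nil => simp [DD]
    | cons g u ih =>
      rw [wd_cons, anti_mul th_th (DD_mul par s) (DD_mul par s) (th_DD par s hs) (th_DD par s hs), ih]
      by_cases h : g = s <;> simp [DD, h]
  have h2 : (2 : ℂ) • DD par s (DD par s x) = 0 := by
    rw [two_smul]; exact LinearMap.congr_fun this x
  exact (smul_eq_zero.1 h2).resolve_left two_ne_zero

theorem DD_QQ (hs : par s = true) (hl : l ≠ s) {d : I →₀ ℕ} : ∀ x ∈ G id d,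
    DD par s (QQ par l s x) + QQ par l s (DD par s x) = (d l : ℂ) • x := by
  refine G_eq ((DD par s).comp (QQ par l s) + (QQ par l s).comp (DD par s))
    ((d l : ℂ) • LinearMap.id) ?_
  rintro u rfl
  show DD par s (QQ par l s (wd u)) + QQ par l s (DD par s (wd u)) = (deg id u l : ℂ) • wd u
  induction u with
  | nil => simp [DD, QQ]
  | cons g u ih =>
    rw [wd_cons, anti_mul th_th (DD_mul par s) (QQ_mul par l s) (th_DD par s hs) (th_QQ par l s hs), ih]
    by_cases h : g = l
    · subst h
      simp [DD, QQ, hl, der_mul, add_smul]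
    · by_cases h' : g = s <;> simp [DD, QQ, h, h', single_eq_of_ne (Ne.symm h), Ne.symm hl,
        single_eq_of_ne hl]

/-- the dimension of the multigraded piece of `L_{j+3}/L_{j+4}` -/
def bb (j : ℕ) (d : I →₀ ℕ) : ℕ := qd (LC (th par id) (j + 3)) (LC (th par id) (j + 2) ⊓ G id d)

instance fd_inf (N : Submodule ℂ (FA I)) (d : I →₀ ℕ) :
    FiniteDimensional ℂ (N ⊓ G id d : Submodule ℂ _) := finiteDimensional_of_le inf_le_right

theorem bb_stable (j : ℕ) : ∃ N, ∀ s d, N ≤ d s → bb par j (d + single s 1) = bb par j d := by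
  choose N0 hN0 using fun s => YA_surj par s j
  have h1 : ∀ s d, Finset.univ.sup N0 ≤ d s → bb par j (d + single s (kp par s)) ≤ bb par j d :=
    fun s d hd => qd_le (even_der_LC (Yd_mul _ _) (th_YA par s) _)
      (hN0 s d ((Finset.le_sup (Finset.mem_univ s)).trans hd))
  have h2 : ∀ s d, Finset.univ.sup N0 ≤ d s → bb par j (d + single s 2) ≤ bb par j d := by
    intro s d hd
    by_cases hs : par s
    · simpa [kp, hs] using h1 s d hd
    · have a := h1 s d hd
      have b := h1 s (d + single s 1) (by simp only [Finsupp.add_apply]; omega)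
      simp only [kp, hs, Bool.false_eq_true, if_false] at a b
      rw [add_assoc, ← single_add] at b
      exact b.trans a
  choose N1 hN1 using dickson (bb par j) _ h2
  refine ⟨Finset.univ.sup N0 + Finset.univ.sup N1 + 1, fun s d hd => ?_⟩
  have hd1 : N1 s + 1 ≤ d s := by
    have := Finset.le_sup (f := N1) (Finset.mem_univ s)
    omega
  by_cases hs : par s
  · by_cases h : ∀ i, i ≠ s → d i = 0
    · have h0 : ∀ d' : I →₀ ℕ, (∀ i, i ≠ s → d' i = 0) → bb par j d' = 0 := by
        intro d' hd'
        have : LC (th par id) (j + 2) ⊓ G id d' = ⊥ :=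
          eq_bot_iff.2 fun x hx => one_letter par s hd' hx.2 (LC_anti (by omega) hx.1)
        simp [bb, qd, this]
      rw [h0 d h, h0 _ fun i hi => by simpa [single_eq_of_ne hi] using h i hi]
    push Not at h
    obtain ⟨l, hl, hdl⟩ := h
    obtain ⟨d0, rfl⟩ : ∃ d0, d = d0 + single s 1 :=
      ⟨d - single s 1, (tsub_add_cancel_of_le (single_le_iff.2 (by omega))).symm⟩
    simp only [Finsupp.add_apply, single_eq_same, single_eq_of_ne hl, add_zero] at hd1 hdl
    have hD := odd_der_LC th_th (DD_mul par s) (th_DD par s hs)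
    have hQ := odd_der_LC th_th (QQ_mul par l s) (th_QQ par l s hs)
    let κ : ℕ → ℕ := fun t => Module.finrank ℂ
      ((LC (th par id) (j + 2) ⊓ G id (d0 + single s t)).map (LC (th par id) (j + 3)).mkQ ⊓
        LinearMap.ker ((LC (th par id) (j + 3)).mapQ (LC (th par id) (j + 3)) (DD par s) (hD (j + 3))) : Submodule ℂ _)
    have hb : ∀ t, bb par j (d0 + single s (t + 1)) = κ (t + 1) + κ t := by
      intro t
      refine qd_split (Q := QQ par l s) (hD (j + 3)) (hQ (j + 3)) ?_ ?_ (DD_DD par s hs)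
        (c := (d0 l : ℂ)) (by exact_mod_cast hdl) ?_
      · exact fun x hx => ⟨hD _ x hx.1, (shift_DD par s).mem
          (by rw [add_zero, add_assoc, ← single_add]) hx.2⟩
      · exact fun x hx => ⟨hQ _ x hx.1, (shift_QQ par l s).mem
          (by rw [add_zero, add_assoc, ← single_add]) hx.2⟩
      · intro x hx
        simpa [single_eq_of_ne hl] using DD_QQ par l s hs hl x hx.2
    have hk := alt_const κ fun t => by
      rw [← hb (t + 2), ← hb t, ← hN1 s (d0 + single s (t + 1))
        (by simp only [Finsupp.add_apply, single_eq_same]; omega), add_assoc d0, ← single_add]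
    rw [add_assoc, ← single_add, hb 1, hb 0, hk, add_comm]
  · have a := h1 s d (by omega)
    have b := h1 s (d + single s 1) (by simp only [Finsupp.add_apply]; omega)
    simp only [kp, hs, Bool.false_eq_true, if_false] at a b
    rw [add_assoc, ← single_add] at b
    have c := hN1 s d (by omega)
    exact le_antisymm a (c ▸ b)

theorem bb_eq (j : ℕ) (d : I →₀ ℕ) : (bb par j d : ℤ) =
    (Module.finrank ℂ (LC (th par id) (j + 2) ⊓ G id d : Submodule ℂ _) : ℤ) -
      Module.finrank ℂ (LC (th par id) (j + 3) ⊓ G id d : Submodule ℂ _) := by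
  rw [bb, qd_eq, inf_right_comm, inf_eq_right.2 (LC_succ_le _)]

theorem br_G {J : Type} {c : J → I} {d d' : I →₀ ℕ} {x y : FA J} (hx : x ∈ G c d) (hy : y ∈ G c d') :
    br (th par c) x y = x * y - (-1 : ℂ) ^ (pd par d * pd par d') • (y * x) := by
  have h1 := th_of_mem (par := par) x hx
  have h2 := th_of_mem (par := par) y hy
  rcases Nat.even_or_odd (pd par d) with h | h
  · rw [h.neg_one_pow, one_smul] at h1
    rw [br_even h1, (h.mul_right _).neg_one_pow, one_smul]
  · rw [h.neg_one_pow, neg_one_smul] at h1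
    rw [br_odd h1, h2, pow_mul, h.neg_one_pow, smul_mul_assoc]

theorem deg_id (u : List I) : Multiset.toFinsupp (u : Multiset I) = deg id u := by
  induction u with
  | nil => simp
  | cons g u ih =>
    rw [deg_cons, ← ih, ← Multiset.cons_coe, ← Multiset.singleton_add, map_add,
      Multiset.toFinsupp_singleton]
    rfl

theorem rational (m n : ℕ) (L : ℕ → Submodule ℂ (FreeAlgebra ℂ (Fin m ⊕ Fin n)))
    (G : ((Fin m ⊕ Fin n) →₀ ℕ) → Submodule ℂ (FreeAlgebra ℂ (Fin m ⊕ Fin n)))
    (hG : ∀ d : (Fin m ⊕ Fin n) →₀ ℕ, G d = Submodule.span ℂ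
        ((fun w : FreeMonoid (Fin m ⊕ Fin n) =>
            FreeMonoid.lift (fun x => FreeAlgebra.ι ℂ x) w) ''
          {w : FreeMonoid (Fin m ⊕ Fin n) |
            Multiset.toFinsupp (↑(FreeMonoid.toList w) : Multiset (Fin m ⊕ Fin n)) = d}))
    (h1 : L 1 = ⊤)
    (hL : ∀ k : ℕ, 1 ≤ k → L (k + 1) = Submodule.span ℂ
        {x : FreeAlgebra ℂ (Fin m ⊕ Fin n) |
          ∃ (w : FreeMonoid (Fin m ⊕ Fin n)) (d : (Fin m ⊕ Fin n) →₀ ℕ)
            (b : FreeAlgebra ℂ (Fin m ⊕ Fin n)),
            b ∈ L k ⊓ G d ∧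
            x = FreeMonoid.lift (fun x => FreeAlgebra.ι ℂ x) w * b -
              ((-1 : ℂ) ^ ((∑ j : Fin n,
                  (Multiset.toFinsupp (↑(FreeMonoid.toList w) : Multiset (Fin m ⊕ Fin n)))
                    (Sum.inr j)) * ∑ j : Fin n, d (Sum.inr j))) •
                (b * FreeMonoid.lift (fun x => FreeAlgebra.ι ℂ x) w)})
    (k : ℕ) (hk : 3 ≤ k) (h : MvPowerSeries (Fin m ⊕ Fin n) ℤ)
    (hh : ∀ d, MvPowerSeries.coeff d h =
      (Module.finrank ℂ (L k ⊓ G d : Submodule ℂ (FreeAlgebra ℂ (Fin m ⊕ Fin n))) : ℤ) -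
        (Module.finrank ℂ (L (k + 1) ⊓ G d : Submodule ℂ (FreeAlgebra ℂ (Fin m ⊕ Fin n))) : ℤ)) :
    ∃ p : MvPolynomial (Fin m ⊕ Fin n) ℤ,
      h * ∏ s : Fin m ⊕ Fin n, (1 - MvPowerSeries.X s) = (p : MvPowerSeries (Fin m ⊕ Fin n) ℤ) := by
  let par : Fin m ⊕ Fin n → Bool := Sum.isRight
  have hw : ∀ w : FreeMonoid (Fin m ⊕ Fin n),
      FreeMonoid.lift (fun x => FreeAlgebra.ι ℂ x) w = wd (FreeMonoid.toList w) :=
    fun w => FreeMonoid.lift_apply _ _
  have hpd : ∀ d : (Fin m ⊕ Fin n) →₀ ℕ, ∑ j : Fin n, d (Sum.inr j) = pd par d := by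
    intro d; simp [pd, par, Fintype.sum_sum_type]
  have hG' : ∀ d, G d = H102Z.Lcs.G id d := by
    intro d
    rw [hG, H102Z.Lcs.G]
    congr 1
    ext x
    constructor
    · rintro ⟨w, hw', rfl⟩
      exact ⟨FreeMonoid.toList w, (deg_id _).symm.trans hw', (hw w).symm⟩
    · rintro ⟨u, hu, rfl⟩
      exact ⟨FreeMonoid.ofList u, (deg_id _).trans hu, hw _⟩
  have hL' : ∀ j, L (j + 1) = LC (th par id) j := by
    intro j
    induction j with
    | zero => exact h1
    | succ j ih =>
      rw [hL (j + 1) (by omega), ih]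
      simp only [hw, hpd, hG', deg_id]
      apply le_antisymm
      · rw [span_le]
        rintro _ ⟨w, d, b, hb, rfl⟩
        rw [← br_G par (wd_mem_G _) hb.2]
        exact br_mem_LC _ hb.1
      · refine map₂_le.2 fun a _ v hv => ?_
        refine map_mem_of_wd ((br (th par id)).flip v) (fun u => ?_) a
        refine iSup_ind (br (th par id) (wd u)) ?_ v (isGr_LC (c := id) j hv)
        intro d b hb
        exact subset_span ⟨FreeMonoid.ofList u, d, b, hb, br_G par (wd_mem_G _) hb.2⟩
  obtain ⟨j, rfl⟩ : ∃ j, k = j + 3 := ⟨k - 3, by omega⟩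
  obtain ⟨N, hN⟩ := bb_stable par j
  have hb : ∀ d, MvPowerSeries.coeff d h = bb par j d := by
    intro d
    rw [hh, bb_eq, hG', hL' (j + 2), hL' (j + 3)]
  exact poly_of_stable h N fun s d hd => by rw [hb, hb, hN s d hd]

end H102Z.Lcs
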