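import Pool.Agent.H102Z.Lcs.Free
import Pool.Agent.H102Z.Lcs.Lin

/-! The part of the free superalgebra with one extra letter which is linear in that letter. -/

noncomputable section

set_option linter.unusedSectionVars false
set_option linter.unusedSimpArgs false

namespace H102Z.Lcs

open Submodule Finsupp

variable {I : Type} [Fintype I] [DecidableEq I] (par : I → Bool)

/-- step size -/
def kp (s : I) : ℕ := if par s then 2 else 1

theorem kp_bd (s : I) : 1 ≤ kp par s ∧ kp par s ≤ 2 := by unfold kp; split_ifs <;> simp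

/-- the even element attached to a generator -/
def zz (s : I) : FA I := if par s then gn s * gn s else gn s

theorem zz_mem (s : I) : zz par s ∈ G id (single s (kp par s)) := by
  unfold zz kp
  split_ifs
  · have := G_mul (gn_mem_G (c := id) s) (gn_mem_G (c := id) s)
    rwa [← single_add] at this
  · exact gn_mem_G (c := id) s

theorem th_zz (s : I) : th par id (zz par s) = zz par s := by
  unfold zz
  split_ifs with h <;> simp [th_gn, h]

theorem split_word (s : I) (l : List I) (r : ℕ) (h : r + 1 ≤ deg id l s) :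
    ∃ a b, l = a ++ s :: b ∧ r ≤ deg id b s := by
  induction l with
  | nil => simp at h
  | cons j l ih =>
    by_cases hj : j = s
    · subst hj
      exact ⟨[], l, rfl, by simp at h; omega⟩
    · obtain ⟨a, b, rfl, hb⟩ := ih (by simpa [single_eq_of_ne (Ne.symm hj)] using h)
      exact ⟨j :: a, b, rfl, hb⟩

theorem mz_shift (s : I) (d : I →₀ ℕ) : ∀ x ∈ G (id : I → I) d,
    mz (zz par s) x ∈ G id (d + single s (kp par s)) := fun x hx => by
  rw [mz_apply]
  exact add_mem (add_comm d _ ▸ G_mul (zz_mem par s) hx) (G_mul hx (zz_mem par s))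

theorem mu_surj (s : I) (d : I →₀ ℕ) (hd : 3 ≤ d s + kp par s) :
    ∀ x ∈ G (id : I → I) (d + single s (kp par s)),
      ∃ y ∈ G (id : I → I) d, x - mz (zz par s) y ∈ M3 (th par id) := by
  intro x hx
  have h1 : x ∈ LinearMap.range (mz (zz par s)) ⊔ M3 (th par id) := by
    refine G_ind LinearMap.id ?_ x hx
    intro l hl
    obtain ⟨a, l1, rfl, h1⟩ := split_word s l 2 (by rw [hl]; simpa using hd)
    obtain ⟨b, l2, rfl, h2⟩ := split_word s l1 1 h1
    obtain ⟨c, e, rfl, -⟩ := split_word s l2 0 h2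
    unfold zz
    split_ifs with h
    · have := odd_mem (θ := th par id) th_th (y := gn s) (by simp [th_gn, h]) (wd a) (wd b) (wd c) (wd e)
      simpa [mul_assoc] using this
    · have := even_mem (θ := th par id) th_th (x := gn s) (by simp [th_gn, h]) (wd a) (wd b)
        (wd c * gn s * wd e)
      simpa [mul_assoc] using this
  obtain ⟨_, ⟨y, rfl⟩, m, hm, e⟩ := mem_sup.1 h1
  refine ⟨pr id d y, pr_mem d y, ?_⟩
  have := congrArg (pr id (d + single s (kp par s))) e
  rw [map_add, pr_shift (mz_shift par s), pr_of_mem x hx] at this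
  rw [← this, add_sub_cancel_left]
  exact isGr_M3.pr_mem _ hm

variable (l : I)

/-- colouring of the extended alphabet -/
def cl : Option I → I := fun o => o.getD l

/-- parity automorphism of the extended algebra -/
abbrev tx : FA (Option I) →ₐ[ℂ] FA (Option I) := th par (cl l)

/-- the inclusion -/
abbrev io : FA I →ₐ[ℂ] FA (Option I) := ren some

/-- the new letter -/
abbrev tt : FA (Option I) := gn none

theorem io_th (a : FA I) : io (th par id a) = tx par l (io a) :=
  ren_th (c := id) (c' := cl l) (g := some) (fun _ => rfl) a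

theorem io_G {d : I →₀ ℕ} {x : FA I} (hx : x ∈ G id d) : io x ∈ G (cl l) d :=
  ren_mem_G (fun _ => rfl) x hx

theorem tt_G : tt ∈ G (cl l) (single l 1) := gn_mem_G (c := cl l) none

/-- elements without the new letter -/
def TT : Submodule ℂ (FA (Option I)) := LinearMap.range (io (I := I)).toLinearMap

theorem io_mem (a : FA I) : io a ∈ TT := ⟨a, rfl⟩

theorem isGr_TT : IsGr (cl l) (TT (I := I)) := by
  rintro _ ⟨x, rfl⟩
  exact map_mem_of_wd _ (fun w => mem_iSup_of_mem (deg id w)
    (mem_inf.2 ⟨io_mem _, io_G l (wd_mem_G w)⟩)) x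

/-- elements linear in the new letter -/
def WW : Submodule ℂ (FA (Option I)) :=
  map₂ (LinearMap.mul ℂ _) (map₂ (LinearMap.mul ℂ _) TT (span ℂ {tt})) TT

theorem mem_WW (a b : FA I) : io a * tt * io b ∈ WW :=
  apply_mem_map₂ (LinearMap.mul ℂ _)
    (apply_mem_map₂ (LinearMap.mul ℂ _) (io_mem a) (mem_span_singleton_self _)) (io_mem b)

theorem WW_ind {V : Type*} [AddCommGroup V] [Module ℂ V] (Φ : FA (Option I) →ₗ[ℂ] V)
    {N : Submodule ℂ V} (h : ∀ a b, Φ (io a * tt * io b) ∈ N) : ∀ w ∈ WW, Φ w ∈ N := by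
  refine map₂_ind Φ ?_
  rintro u hu _ ⟨b, rfl⟩
  refine map₂_ind (Φ.comp ((LinearMap.mul ℂ _).flip (io b))) ?_ u hu
  rintro _ ⟨a, rfl⟩ v hv
  obtain ⟨r, rfl⟩ := mem_span_singleton.1 hv
  simpa using smul_mem N r (h a b)

theorem isGr_WW : IsGr (cl l) (WW (I := I)) := by
  refine IsGr.map₂ (fun _ _ _ _ => G_mul) (IsGr.map₂ (fun _ _ _ _ => G_mul) (isGr_TT l) ?_) (isGr_TT l)
  rw [IsGr, span_le, Set.singleton_subset_iff]
  exact mem_iSup_of_mem (single l 1) (mem_inf.2 ⟨mem_span_singleton_self _, tt_G l⟩)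

theorem WW_left (a : FA I) : ∀ w ∈ WW, io a * w ∈ WW :=
  WW_ind (LinearMap.mul ℂ _ (io a)) fun b c => by simpa [mul_assoc] using mem_WW (a * b) c

theorem WW_right (a : FA I) : ∀ w ∈ WW, w * io a ∈ WW :=
  WW_ind ((LinearMap.mul ℂ _).flip (io a)) fun b c => by simpa [mul_assoc] using mem_WW b (c * a)

/-- chains -/
abbrev CL (j : ℕ) : Submodule ℂ (FA (Option I)) := Ch (tx par l) TT WW j

theorem isGr_CL (j : ℕ) : IsGr (cl l) (CL par l j) := isGr_Ch (isGr_TT l) (isGr_WW l) j

variable (s : I)

/-- elements of low degree without the new letter -/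
def PP : Submodule ℂ (FA (Option I)) :=
  ⨆ d : {d : I →₀ ℕ // d s ≤ 4}, (G id d.1).map (io (I := I)).toLinearMap

/-- elements of low degree -/
def Low (r : ℕ) : Submodule ℂ (FA (Option I)) := ⨆ d : {d : I →₀ ℕ // d s ≤ r}, G (cl l) d.1

theorem mem_PP {d : I →₀ ℕ} (hd : d s ≤ 4) {x : FA I} (hx : x ∈ G id d) : io x ∈ PP s :=
  mem_iSup_of_mem (⟨d, hd⟩ : {d : I →₀ ℕ // d s ≤ 4}) (mem_map_of_mem hx)

theorem PP_le : PP s ≤ TT := iSup_le fun _ => LinearMap.map_le_range

theorem red0 (a : FA I) : ∀ w ∈ WW, br (tx par l) (io a) w ∈ map₂ (br (tx par l)) (PP s) WW := by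
  have hw : ∀ u : List I, ∀ w ∈ WW, br (tx par l) (io (wd u)) w ∈ map₂ (br (tx par l)) (PP s) WW := by
    intro u
    induction u with
    | nil => intro w _; simp [br_one_left]
    | cons g u ih =>
      intro w hw
      have hg : io (gn g) ∈ PP s := mem_PP s (by simp [single_apply]; split_ifs <;> simp) (gn_mem_G g)
      have h1 := apply_mem_map₂ (br (tx par l)) hg (WW_left (wd u) w hw)
      have h2 := ih _ (WW_right (gn g) w hw)
      have h3 := ih _ (WW_right (gn g) _ ((isGr_WW l).th_mem (par := par) w hw))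
      have e1 : tx par l (io (wd u)) = io (wd u) ∨ tx par l (io (wd u)) = -io (wd u) := by
        rw [← io_th, th_wd, map_smul]
        rcases neg_one_pow_eq_or ℂ (pd par (deg id u)) with h | h <;> simp [h]
      have e2 : tx par l (io (gn g)) = io (gn g) ∨ tx par l (io (gn g)) = -io (gn g) := by
        rw [← io_th, th_gn]
        split_ifs <;> simp
      rw [wd_cons, map_mul]
      generalize io (wd u) = b at *
      generalize io (gn g) = a at *
      rcases e1 with e1 | e1 <;> rcases e2 with e2 | e2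
      · convert add_mem h1 h2 using 1
        rw [br_even e1, br_even e2, br_even (by rw [map_mul, e1, e2])]; noncomm_ring
      · convert add_mem h1 h3 using 1
        rw [br_even e1, br_odd e2, br_odd (by rw [map_mul, e1, e2, neg_mul]), map_mul, e1]
        noncomm_ring
      · convert add_mem h1 h2 using 1
        rw [br_odd e1, br_even e2, br_odd (by rw [map_mul, e1, e2, mul_neg]), map_mul, e2]
        noncomm_ring
      · convert sub_mem h1 h3 using 1
        rw [br_odd e1, br_odd e2, br_even (by rw [map_mul, e1, e2, neg_mul_neg]), map_mul, map_mul,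
          e1, e2, th_th]
        noncomm_ring
  intro w hw'
  exact map_mem_of_wd (((br (tx par l)).flip w).comp io.toLinearMap) (fun u => hw u w hw') a

theorem hm_of_G {d : I →₀ ℕ} {x : FA (Option I)} (hx : x ∈ G (cl l) d) :
    ∃ p, Hm (tx par l) p x := by
  have := th_of_mem (par := par) x hx
  rcases neg_one_pow_eq_or ℂ (pd par d) with h | h
  · exact ⟨false, by simpa [Hm, h] using this⟩
  · exact ⟨true, by simpa [Hm, h] using this⟩

theorem red (j : ℕ) (a : FA I) : ∀ v ∈ CL par l (j + 1), br (tx par l) (io a) v ∈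
    map₂ (br (tx par l)) (PP s) (CL par l (j + 1)) ⊔ LC (tx par l) (j + 3) := by
  set K := map₂ (br (tx par l)) (PP s) (CL par l (j + 1)) ⊔ LC (tx par l) (j + 3)
  have main : ∀ r, ∀ d : I →₀ ℕ, d s = r → ∀ a ∈ G id d, ∀ v ∈ CL par l (j + 1),
      br (tx par l) (io a) v ∈ K := by
    intro r
    induction r using Nat.strong_induction_on with
    | _ r ih =>
    intro d hd a ha v hv
    by_cases h4 : d s ≤ 4
    · exact mem_sup_left (apply_mem_map₂ _ (mem_PP s h4 ha) hv)
    have hk := kp_bd par s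
    obtain ⟨d1, rfl⟩ : ∃ d1, d = d1 + single s (kp par s) + single s (kp par s) := by
      refine ⟨d - single s (2 * kp par s), ?_⟩
      rw [add_assoc, ← single_add, ← two_mul, tsub_add_cancel_of_le (single_le_iff.2 (by omega))]
    simp only [Finsupp.add_apply, single_eq_same] at hd h4
    obtain ⟨y, hy, m1⟩ := mu_surj par s _ (by simp only [Finsupp.add_apply, single_eq_same]; omega) a ha
    obtain ⟨x, hx, m2⟩ := mu_surj par s _ (by omega) y hy
    set z := zz par s with hzdef
    have hm : a - mz z (mz z x) ∈ M3 (th par id) := by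
      have := add_mem m1 (add_mem (M3_left z m2) (M3_right th_th m2 z))
      convert this using 1
      simp only [mz_apply]; noncomm_ring
    have hM : br (tx par l) (io (a - mz z (mz z x))) v ∈ K :=
      mem_sup_right (M3_br th_th (j + 1) _ (map_mem_M3 io (io_th par l) _ hm) v (Ch_le_LC _ _ _ hv))
    have hz := zz_mem par s
    have hS : br (tx par l) (io (mz z (mz z x))) v ∈ K := by
      refine map₂_ind (br (tx par l) (io (mz z (mz z x)))) ?_ v hv
      intro e he w hw
      refine hom_ind th_th ((isGr_TT l).th_mem (par := par))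
        (fun e => br (tx par l) (io (mz z (mz z x))) (br (tx par l) e w) ∈ K) ?_ ?_ e he
      · rintro pe _ ⟨e, rfl⟩ hpe
        obtain ⟨pa, hpa⟩ := hm_of_G par l (io_G l hx)
        have hze : tx par l (io z) = io z := by rw [← io_th, th_zz]
        have := idS th_th hpa hpe hze w
        have e0 : br (tx par l) (io (mz z (mz z x))) (br (tx par l) (io.toLinearMap e) w) =
            br (tx par l) (io z * io z * io x) (br (tx par l) (io.toLinearMap e) w) +
            (2 : ℤ) • br (tx par l) (io z * io x * io z) (br (tx par l) (io.toLinearMap e) w) +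
            br (tx par l) (io x * io z * io z) (br (tx par l) (io.toLinearMap e) w) := by
          simp only [mz_apply, map_add, map_mul, mul_add, add_mul, LinearMap.add_apply, mul_assoc]
          abel
        rw [e0, this]
        have i1 : ∀ (p q : FA I) (d' : I →₀ ℕ), p ∈ G id d' → d' s < r →
            br (tx par l) (io p) (br (tx par l) (io q) w) ∈ K := fun p q d' hp hd' =>
          ih _ hd' d' rfl p hp _ (br_mem_Ch (io_mem q) hw)
        have hw' : w ∈ LC (tx par l) j := Ch_le_LC _ _ _ hw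
        have i3 : ∀ p q u, br (tx par l) p (br (tx par l) q (br (tx par l) u w)) ∈ K := fun p q u =>
          mem_sup_right (br_mem_LC _ (br_mem_LC _ (br_mem_LC _ hw')))
        have i4 : ∀ p q u v, br (tx par l) p (br (tx par l) q (br (tx par l) u (br (tx par l) v w))) ∈ K :=
          fun p q u v => mem_sup_right (LC_succ_le _ (br_mem_LC _ (br_mem_LC _ (br_mem_LC _ (br_mem_LC _ hw')))))
        simp only [AlgHom.toLinearMap_apply, ← map_mul]
        refine add_mem (add_mem (add_mem (add_mem (add_mem (add_mem (add_mem ?_ ?_) ?_) ?_) ?_) ?_) ?_)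
          (add_mem (add_mem (add_mem (add_mem (add_mem (add_mem ?_ ?_) ?_) ?_) ?_) ?_) ?_) <;>
          refine zsmul_mem ?_ _
        · exact i1 _ _ _ (G_mul hx hz) (by simp only [Finsupp.add_apply, single_eq_same]; omega)
        · exact i1 _ _ _ hz (by simp only [single_eq_same]; omega)
        · exact i1 _ _ _ hz (by simp only [single_eq_same]; omega)
        · exact i1 _ _ _ (G_mul hz hx) (by simp only [Finsupp.add_apply, single_eq_same]; omega)
        · exact i1 _ _ _ (G_mul hz hz) (by simp only [Finsupp.add_apply, single_eq_same]; omega)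
        · exact i1 _ _ _ hx (by omega)
        · exact i1 _ _ _ (G_mul hz hz) (by simp only [Finsupp.add_apply, single_eq_same]; omega)
        exacts [i3 _ _ _, i4 _ _ _ _, i4 _ _ _ _, i4 _ _ _ _, i4 _ _ _ _, i3 _ _ _, i4 _ _ _ _]
      · intro e f he hf
        simpa only [map_add, LinearMap.add_apply] using add_mem he hf
    simpa using add_mem hM hS
  intro v hv
  exact map_mem_of_wd (((br (tx par l)).flip v).comp io.toLinearMap)
    (fun u => main _ _ rfl _ (wd_mem_G u) v hv) a

theorem CL_le (j : ℕ) : CL par l j ≤ Ch (tx par l) (PP s) WW j ⊔ LC (tx par l) (j + 1) := by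
  induction j with
  | zero => exact le_sup_left
  | succ j ih =>
    have h1 : map₂ (br (tx par l)) (PP s) (CL par l j) ≤
        Ch (tx par l) (PP s) WW (j + 1) ⊔ LC (tx par l) (j + 1 + 1) := by
      refine (map₂_le_map₂_right ih).trans ?_
      rw [map₂_sup_right]
      exact sup_le_sup le_rfl (map₂_le_map₂_left le_top)
    refine map₂_le.2 ?_
    rintro _ ⟨a, rfl⟩ v hv
    cases j with
    | zero => exact h1 (red0 par l s a v hv)
    | succ j => exact (sup_le h1 le_sup_right : _ ≤ _) (red par l s j a v hv)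

/-! ### the operators -/

/-- the derivation `t ↦ z t + t z` -/
def ZZ : FA (Option I) →ₗ[ℂ] FA (Option I) :=
  der (AlgHom.id ℂ _) fun o => o.elim (mz (io (zz par s)) tt) fun _ => 0

theorem ZZ_mul (a b : FA (Option I)) : ZZ par s (a * b) = ZZ par s a * b + a * ZZ par s b :=
  der_mul _ _ a b

theorem ZZ_tt : ZZ par s tt = io (zz par s) * tt + tt * io (zz par s) := by simp [ZZ, mz_apply]

theorem der_comm {J J' : Type} {f : J → FA J} {f' : J' → FA J'} (φ : FA J →ₐ[ℂ] FA J')
    (h : ∀ j, φ (f j) = der (AlgHom.id ℂ _) f' (φ (gn j))) (x : FA J) :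
    φ (der (AlgHom.id ℂ _) f x) = der (AlgHom.id ℂ _) f' (φ x) := by
  have : φ.toLinearMap.comp (der (AlgHom.id ℂ _) f) = (der (AlgHom.id ℂ _) f').comp φ.toLinearMap := by
    refine wd_ext fun u => ?_
    induction u with
    | nil => simp
    | cons g u ih =>
      simp only [LinearMap.comp_apply, AlgHom.toLinearMap_apply] at ih
      simp [der_mul, ih, h]
  exact LinearMap.congr_fun this x

theorem ZZ_io (a : FA I) : ZZ par s (io a) = 0 := by
  have : (ZZ par s).comp io.toLinearMap = 0 := by
    refine wd_ext fun u => ?_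
    induction u with
    | nil => simp [ZZ]
    | cons g u ih =>
      simp only [LinearMap.comp_apply, AlgHom.toLinearMap_apply, LinearMap.zero_apply] at ih
      simp only [LinearMap.comp_apply, AlgHom.toLinearMap_apply, LinearMap.zero_apply, wd_cons,
        map_mul, ZZ_mul, ih]
      simp [ZZ]
  exact LinearMap.congr_fun this a

theorem shift_ZZ : Shift (cl l) (ZZ par s) (single s (kp par s)) 0 := by
  refine shift_der (fun j => gn_mem_G j) fun o => ?_
  cases o with
  | some i => exact Or.inl rfl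
  | none =>
    refine Or.inr ⟨single l 1 + single s (kp par s), by simp [cl], ?_⟩
    have h1 := io_G l (zz_mem par s)
    exact add_mem (add_comm (single l 1) _ ▸ G_mul h1 (tt_G l)) (G_mul (tt_G l) h1)

theorem pd_kp : (-1 : ℂ) ^ (pd par (single s (kp par s)) + pd par 0) = 1 := by
  rw [pd_single, kp]; split_ifs <;> simp

theorem th_ZZ (x : FA (Option I)) : tx par l (ZZ par s x) = ZZ par s (tx par l x) := by
  rw [(shift_ZZ par l s).th, pd_kp, one_smul]

theorem ZZ_G (d : I →₀ ℕ) : ∀ x ∈ G (cl l) d, ZZ par s x ∈ G (cl l) (d + single s (kp par s)) :=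
  fun _ hx => (shift_ZZ par l s).mem (add_zero _) hx

/-- bimodule maps commuting with the parity -/
structure Bil (Φ : FA (Option I) →ₗ[ℂ] FA (Option I)) : Prop where
  left : ∀ a w, Φ (io a * w) = io a * Φ w
  right : ∀ a w, Φ (w * io a) = Φ w * io a
  th : ∀ w, tx par l (Φ w) = Φ (tx par l w)

theorem Bil.br {Φ : FA (Option I) →ₗ[ℂ] FA (Option I)} (h : Bil par l Φ) (a : FA I)
    (w : FA (Option I)) : Φ (br (tx par l) (io a) w) = br (tx par l) (io a) (Φ w) := by
  simp only [br_apply, map_sub, map_add, map_smul, ← io_th, h.left, h.right, h.th]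

theorem bil_ZZ : Bil par l (ZZ par s) :=
  ⟨fun a w => by rw [ZZ_mul, ZZ_io]; simp, fun a w => by rw [ZZ_mul, ZZ_io]; simp, th_ZZ par l s⟩

theorem Bil.small {Φ : FA (Option I) →ₗ[ℂ] FA (Option I)} (h : Bil par l Φ)
    (ht : Φ tt ∈ M3 (tx par l)) (j : ℕ) : ∀ x ∈ CL par l (j + 1), Φ x ∈ LC (tx par l) (j + 2) := by
  induction j with
  | zero =>
    refine map₂_ind Φ ?_
    rintro _ ⟨a, rfl⟩ w hw
    rw [AlgHom.toLinearMap_apply, h.br]
    refine br_M3 th_th _ _ (WW_ind Φ (fun a b => ?_) w hw)
    rw [h.right, h.left]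
    exact M3_right th_th (M3_left _ ht) _
  | succ j ih =>
    refine map₂_ind Φ ?_
    rintro _ ⟨a, rfl⟩ w hw
    rw [AlgHom.toLinearMap_apply, h.br]
    exact br_mem_LC _ (ih w hw)

theorem ZZ_CL (j : ℕ) : ∀ x ∈ CL par l j, ZZ par s x ∈ CL par l j := by
  refine even_der_Ch (ZZ_mul par s) (th_ZZ par l s) ?_ ?_ j
  · rintro _ ⟨a, rfl⟩
    rw [AlgHom.toLinearMap_apply, ZZ_io]; exact zero_mem _
  · refine WW_ind _ fun a b => ?_
    rw [(bil_ZZ par s s).right, (bil_ZZ par s s).left, ZZ_tt]
    have := add_mem (mem_WW (a * zz par s) b) (mem_WW a (zz par s * b))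
    convert this using 1
    simp only [map_mul]; noncomm_ring

theorem low_base : WW ≤ WW.map (ZZ par s) ⊔ (LC (tx par l) 1 ⊔ M3 (tx par l)) ⊔ Low l s 3 := by
  set X := WW.map (ZZ par s) ⊔ (LC (tx par l) 1 ⊔ M3 (tx par l)) ⊔ Low l s 3
  have hL : ∀ x ∈ LC (tx par l) 1, x ∈ X := fun x hx => mem_sup_left (mem_sup_right (mem_sup_left hx))
  have h1 : ∀ c : FA I, io c * tt ∈ X := by
    refine map_mem_of_wd (((LinearMap.mul ℂ _).flip tt).comp io.toLinearMap) fun u => ?_
    show io (wd u) * tt ∈ X
    have hu := wd_mem_G (c := id) u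
    generalize deg id u = d at hu
    by_cases hd : d s ≤ 2
    · refine mem_sup_right (mem_iSup_of_mem (⟨d + single l 1, ?_⟩ : {d : I →₀ ℕ // d s ≤ 3})
        (G_mul (io_G l hu) (tt_G l)))
      simp only [Finsupp.add_apply, single_apply]; split_ifs <;> omega
    · have hk := kp_bd par s
      obtain ⟨d1, rfl⟩ : ∃ d1, d = d1 + single s (kp par s) :=
        ⟨d - single s (kp par s), (tsub_add_cancel_of_le (single_le_iff.2 (by omega))).symm⟩
      simp only [Finsupp.add_apply, single_eq_same] at hd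
      obtain ⟨y, -, m⟩ := mu_surj par s d1 (by omega) _ hu
      have a1 : ZZ par s (io y * tt * io 1) ∈ X :=
        mem_sup_left (mem_sup_left (mem_map_of_mem (mem_WW y 1)))
      have a2 := hL _ (br_mem_LC1 (io (zz par s)) (io y * tt))
      have a3 : io (wd u - mz (zz par s) y) * tt ∈ X := mem_sup_left (mem_sup_right (mem_sup_right
        (M3_right th_th (map_mem_M3 io (io_th par l) _ m) tt)))
      convert add_mem (add_mem a1 a2) a3 using 1
      rw [map_one, mul_one, (bil_ZZ par l s).left, ZZ_tt, br_even (by rw [← io_th, th_zz])]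
      simp only [mz_apply, map_sub, map_add, map_mul]; noncomm_ring
  refine fun w hw => WW_ind LinearMap.id (fun a b => ?_) w hw
  show io a * tt * io b ∈ X
  induction b using hom_ind' (θ := th par id) th_th with
  | hadd b c hb hc => simpa only [map_add, mul_add] using add_mem hb hc
  | h p b hb =>
    cases p
    · have hb' : tx par l (io b) = io b := by rw [← io_th, hb]; simp
      convert sub_mem (h1 (b * a)) (hL _ (br_mem_LC1 (io b) (io a * tt))) using 1
      rw [br_even hb', map_mul]; noncomm_ring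
    · have hb' : tx par l (io b) = -io b := by rw [← io_th, hb]; simp
      have h2 : io b * tx par l (io a * tt) ∈ X := by
        rw [map_mul, ← io_th, th_gn]
        split_ifs
        · simpa [mul_assoc] using neg_mem (h1 (b * th par id a))
        · simpa [mul_assoc] using h1 (b * th par id a)
      convert sub_mem h2 (hL _ (br_mem_LC1 (io b) (tx par l (io a * tt)))) using 1
      rw [br_odd hb', th_th]; noncomm_ring

theorem br_Low (r : ℕ) : ∀ p ∈ PP s, ∀ x ∈ Low l s r, br (tx par l) p x ∈ Low l s (r + 4) := by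
  intro p hp x hx
  refine iSup_ind ((br (tx par l)).flip x) ?_ p hp
  rintro ⟨d, hd⟩ _ ⟨p, hp, rfl⟩
  refine iSup_ind (br (tx par l) (io p)) ?_ x hx
  rintro ⟨d', hd'⟩ x hx
  refine mem_iSup_of_mem (⟨d + d', ?_⟩ : {d : I →₀ ℕ // d s ≤ r + 4}) (br_mem_G (io_G l hp) hx)
  simp only [Finsupp.add_apply]; omega

theorem low_step (j r : ℕ) {K : Submodule ℂ (FA (Option I))}
    (hK : ∀ p, ∀ x ∈ K, br (tx par l) p x ∈ LC (tx par l) (j + 2))
    (h : Ch (tx par l) (PP s) WW j ≤ (CL par l j).map (ZZ par s) ⊔ K ⊔ Low l s r) :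
    Ch (tx par l) (PP s) WW (j + 1) ≤
      (CL par l (j + 1)).map (ZZ par s) ⊔ LC (tx par l) (j + 2) ⊔ Low l s (r + 4) := by
  refine map₂_le.2 fun p hp w hw => ?_
  obtain ⟨_, hu0, v, hv, rfl⟩ := mem_sup.1 (h hw)
  obtain ⟨_, ⟨u, hu, rfl⟩, k, hk, rfl⟩ := mem_sup.1 hu0
  rw [map_add, map_add]
  refine add_mem (mem_sup_left (add_mem (mem_sup_left ?_) (mem_sup_right (hK p k hk))))
    (mem_sup_right (br_Low par l s r p hp v hv))
  obtain ⟨a, rfl⟩ := PP_le s hp
  rw [AlgHom.toLinearMap_apply, ← (bil_ZZ par l s).br]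
  exact mem_map_of_mem (br_mem_Ch (io_mem a) hu)

theorem low_all (j : ℕ) : Ch (tx par l) (PP s) WW (j + 1) ≤
    (CL par l (j + 1)).map (ZZ par s) ⊔ LC (tx par l) (j + 2) ⊔ Low l s (4 * j + 7) := by
  induction j with
  | zero =>
    refine low_step par l s 0 3 ?_ (low_base par l s)
    intro p x hx
    obtain ⟨u, hu, v, hv, rfl⟩ := mem_sup.1 hx
    rw [map_add]
    exact add_mem (br_mem_LC _ hu) (br_M3 th_th _ _ hv)
  | succ j ih => exact low_step par l s (j + 1) (4 * j + 7) (fun p x hx => br_mem_LC _ hx) ih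

theorem ZZ_surj (j : ℕ) (d : I →₀ ℕ) (hd : 4 * j + 7 ≤ d s) :
    CL par l (j + 1) ⊓ G (cl l) (d + single s (kp par s)) ≤
      (CL par l (j + 1) ⊓ G (cl l) d).map (ZZ par s) ⊔ LC (tx par l) (j + 2) := by
  rintro x ⟨hx, hx'⟩
  obtain ⟨_, h1, k', hk', rfl⟩ := mem_sup.1 (CL_le par l s (j + 1) hx)
  obtain ⟨_, hu0, v, hv, rfl⟩ := mem_sup.1 (low_all par l s j h1)
  obtain ⟨_, ⟨u, hu, rfl⟩, k, hk, rfl⟩ := mem_sup.1 hu0
  have hv0 : pr (cl l) (d + single s (kp par s)) v = 0 := by
    have := iSup_ind (pr (cl l) (d + single s (kp par s))) (N := ⊥) ?_ v hv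
    · simpa using this
    · rintro ⟨d', hd'⟩ y hy
      refine (mem_bot ℂ).2 (pr_of_ne ?_ y hy)
      rintro rfl
      have := kp_bd par s
      simp only [Finsupp.add_apply, single_eq_same] at hd'
      omega
  rw [← pr_of_mem _ hx', map_add, map_add, map_add, hv0, add_zero, pr_shift (ZZ_G par l s), add_assoc]
  exact add_mem (mem_sup_left (mem_map_of_mem ⟨(isGr_CL par l _).pr_mem _ hu, pr_mem _ _⟩))
    (mem_sup_right (add_mem ((isGr_LC _).pr_mem _ hk) ((isGr_LC _).pr_mem _ hk')))

end H102Z.Lcs
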