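import Mathlib

/-! Superbrackets and the lower central series in an algebra with an involution. -/

noncomputable section

set_option linter.unusedSimpArgs false
set_option linter.unusedSectionVars false

namespace H102Z.Lcs

open Submodule

variable {R : Type*} [Ring R] [Algebra ℂ R]

/-- The supercommutator for the parity automorphism `θ`. -/
def br (θ : R →ₐ[ℂ] R) : R →ₗ[ℂ] R →ₗ[ℂ] R :=
  LinearMap.mk₂ ℂ (fun a w => a * w - (1 / 2 : ℂ) • (w * a + w * θ a + θ w * a - θ w * θ a))
    (fun a b w => by simp only [map_add, mul_add, add_mul]; module)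
    (fun c a w => by simp only [map_smul, smul_mul_assoc, mul_smul_comm]; module)
    (fun a w v => by simp only [map_add, mul_add, add_mul]; module)
    (fun c a w => by simp only [map_smul, smul_mul_assoc, mul_smul_comm]; module)

variable {θ : R →ₐ[ℂ] R}

theorem br_apply (a w : R) :
    br θ a w = a * w - (1 / 2 : ℂ) • (w * a + w * θ a + θ w * a - θ w * θ a) := rfl

theorem br_even {a : R} (h : θ a = a) (w : R) : br θ a w = a * w - w * a := by
  rw [br_apply, h]; module

theorem br_odd {a : R} (h : θ a = -a) (w : R) : br θ a w = a * w - θ w * a := by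
  rw [br_apply, h]; simp only [mul_neg]; module

theorem br_even' {w : R} (h : θ w = w) (a : R) : br θ a w = a * w - w * a := by
  rw [br_apply, h]; module

theorem br_odd' {w : R} (h : θ w = -w) (a : R) : br θ a w = a * w - w * θ a := by
  rw [br_apply, h]; simp only [neg_mul]; module

theorem map_br {S : Type*} [Ring S] [Algebra ℂ S] {θ' : S →ₐ[ℂ] S} (φ : R →ₐ[ℂ] S)
    (h : ∀ a, φ (θ a) = θ' (φ a)) (a w : R) : φ (br θ a w) = br θ' (φ a) (φ w) := by
  simp only [br_apply, map_sub, map_add, map_mul, map_smul, h]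

theorem θ_br (a w : R) : θ (br θ a w) = br θ (θ a) (θ w) := map_br θ (fun _ => rfl) a w

theorem br_one_left (w : R) : br θ 1 w = 0 := by
  rw [br_even (map_one θ)]; simp

/-- homogeneous of parity `i` -/
def Hm (θ : R →ₐ[ℂ] R) (i : Bool) (a : R) : Prop := θ a = if i then -a else a

/-- the sign rule -/
def sg (i j : Bool) : ℤ := if i && j then -1 else 1

theorem hom_ind (hθ : ∀ a, θ (θ a) = a) {N : Submodule ℂ R} (hN : ∀ a ∈ N, θ a ∈ N)
    (P : R → Prop) (h : ∀ i a, a ∈ N → Hm θ i a → P a) (hadd : ∀ a b, P a → P b → P (a + b)) :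
    ∀ a ∈ N, P a := by
  intro a ha
  have e : a = (1 / 2 : ℂ) • (a + θ a) + (1 / 2 : ℂ) • (a - θ a) := by module
  rw [e]
  refine hadd _ _ (h false _ (smul_mem _ _ (add_mem ha (hN a ha))) ?_)
    (h true _ (smul_mem _ _ (sub_mem ha (hN a ha))) ?_)
  · simp only [Hm, map_smul, map_add, hθ]; simp [add_comm]
  · simp only [Hm, map_smul, map_sub, hθ, if_true]; module

theorem hom_ind' (hθ : ∀ a, θ (θ a) = a)
    (P : R → Prop) (h : ∀ i a, Hm θ i a → P a) (hadd : ∀ a b, P a → P b → P (a + b)) :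
    ∀ a, P a := fun a =>
  hom_ind hθ (N := ⊤) (fun _ _ => trivial) P (fun i a _ => h i a) hadd a trivial

/-- The lower central series; `LC θ j` is `L_{j+1}`. -/
def LC (θ : R →ₐ[ℂ] R) : ℕ → Submodule ℂ R
  | 0 => ⊤
  | j + 1 => map₂ (br θ) ⊤ (LC θ j)

theorem br_mem_LC {j : ℕ} (a : R) {w : R} (hw : w ∈ LC θ j) : br θ a w ∈ LC θ (j + 1) :=
  apply_mem_map₂ _ trivial hw

theorem mem_LC_zero (a : R) : a ∈ LC θ 0 := trivial

theorem br_mem_LC1 (a w : R) : br θ a w ∈ LC θ 1 := br_mem_LC a (mem_LC_zero w)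

theorem br_mem_LC2 (a b w : R) : br θ a (br θ b w) ∈ LC θ 2 := br_mem_LC a (br_mem_LC1 b w)

theorem map₂_ind {M N P : Type*} [AddCommGroup M] [AddCommGroup N] [AddCommGroup P] [Module ℂ M]
    [Module ℂ N] [Module ℂ P] {f : M →ₗ[ℂ] N →ₗ[ℂ] P} {p : Submodule ℂ M} {q : Submodule ℂ N}
    {Q : Type*} [AddCommGroup Q] [Module ℂ Q] (Φ : P →ₗ[ℂ] Q) {K : Submodule ℂ Q}
    (h : ∀ a ∈ p, ∀ b ∈ q, Φ (f a b) ∈ K) : ∀ x ∈ map₂ f p q, Φ x ∈ K :=
  fun _ hx => (map₂_le (r := K.comap Φ)).2 h hx

theorem LC_succ_le (j : ℕ) : LC θ (j + 1) ≤ LC θ j := by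
  induction j with
  | zero => exact le_top
  | succ j ih => exact map₂_le_map₂_right ih

theorem LC_anti {i j : ℕ} (h : i ≤ j) : LC θ j ≤ LC θ i := by
  induction h with
  | refl => exact le_rfl
  | step _ ih => exact (LC_succ_le _).trans ih

theorem map_mem_LC {S : Type*} [Ring S] [Algebra ℂ S] {θ' : S →ₐ[ℂ] S} (φ : R →ₐ[ℂ] S)
    (h : ∀ a, φ (θ a) = θ' (φ a)) (j : ℕ) : ∀ w ∈ LC θ j, φ w ∈ LC θ' j := by
  induction j with
  | zero => intro w _; trivial
  | succ j ih =>
    refine map₂_ind φ.toLinearMap ?_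
    intro a _ b hb
    simpa [map_br φ h] using br_mem_LC _ (ih b hb)

theorem θ_mem_LC (j : ℕ) : ∀ w ∈ LC θ j, θ w ∈ LC θ j := map_mem_LC θ (fun _ => rfl) j

section identities

variable (hθ : ∀ a, θ (θ a) = a)
include hθ

theorem jacobi {i k : Bool} {a l : R} (ha : Hm θ i a) (hl : Hm θ k l) (w : R) :
    br θ (br θ a l) w = br θ a (br θ l w) - sg i k • br θ l (br θ a w) := by
  have h1 : br θ a l = a * l - sg i k • (l * a) := by
    cases i <;> cases k <;> simp only [Hm, if_true, Bool.false_eq_true, if_false] at ha hl <;>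
      (simp (disch := simp only [map_mul, map_add, map_neg, neg_mul, mul_neg, neg_neg, neg_add, ha, hl]) only
        [br_even, br_odd, map_sub, map_mul, map_add, map_neg, hθ, sg, Bool.and_true, Bool.and_false,
        Bool.true_and, Bool.false_and, if_true, Bool.false_eq_true, if_false, ha, hl]
       try simp only [mul_sub, sub_mul, mul_add, add_mul, mul_assoc, neg_mul, mul_neg, neg_neg]
       abel)
  rw [h1, map_sub, map_zsmul, LinearMap.sub_apply, LinearMap.smul_apply]
  cases i <;> cases k <;> simp only [Hm, if_true, Bool.false_eq_true, if_false] at ha hl <;>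
    (simp (disch := simp only [map_mul, map_add, map_neg, neg_mul, mul_neg, neg_neg, neg_add, ha, hl]) only
      [br_even, br_odd, map_sub, map_mul, map_add, map_neg, hθ, sg, Bool.and_true, Bool.and_false,
      Bool.true_and, Bool.false_and, if_true, Bool.false_eq_true, if_false, ha, hl]
     try simp only [mul_sub, sub_mul, mul_add, add_mul, mul_assoc, neg_mul, mul_neg, neg_neg]
     abel)

set_option linter.unusedSectionVars false in
theorem idH {pe pu pc pf pg : Bool} {e u c f g : R} (he : Hm θ pe e) (hu : Hm θ pu u)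
    (hc : Hm θ pc c) (hf : Hm θ pf f) (hg : Hm θ pg g) :
    br θ e (u * br θ c (br θ f g)) =
      (((1) * sg pf pe * sg pf pu * sg pf pc : ℤ)) • br θ f (br θ e (u * c * g)) +
      (((-1) * sg pc pe * sg pc pu * sg pf pe * sg pf pu * sg pg pe * sg pg pu : ℤ)) • br θ (c * f) (br θ g (e * u)) +
      (((-1) * sg pg pc * sg pg pf : ℤ)) • br θ (e * u * g) (br θ c f) +
      (((-1) * sg pu pe * sg pg pf * sg pg pc * sg pg pe * sg pf pc * sg pf pe * sg pc pe : ℤ)) • br θ (u * g) (br θ f (c * e)) +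
      (((1) * sg pu pe * sg pc pe * sg pg pf * sg pg pe * sg pf pe : ℤ)) • br θ (u * c * g) (br θ f e) +
      (((-1) * sg pu pe * sg pc pe * sg pf pe * sg pg pe : ℤ)) • br θ u (br θ (c * f) (g * e)) +
      (((-1) * sg pg pe * sg pg pf * sg pg pu * sg pg pc * sg pf pu * sg pf pc : ℤ)) • br θ (g * e) (br θ (f * u) c) +
      (((1) * sg pg pc * sg pg pf : ℤ)) • br θ (e * u) (br θ (g * c) f) +
      (((1) * sg pg pe * sg pg pf * sg pg pu * sg pg pc * sg pf pu * sg pf pc : ℤ)) • br θ g (br θ (e * f * u) c) +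
      (((-1) * sg pu pe * sg pg pc * sg pg pe * sg pg pf * sg pc pe : ℤ)) • br θ u (br θ (g * c * e) f) +
      (((-1) * sg pu pe * sg pg pe * sg pg pc * sg pg pf : ℤ)) • br θ (u * g) (br θ e (c * f)) +
      (((-1) * sg pc pu * sg pf pu : ℤ)) • br θ e (br θ (c * f) (u * g)) +
      (((1) * sg pg pc * sg pg pf * sg pg pe * sg pg pu * sg pc pe * sg pc pu * sg pf pe * sg pf pu : ℤ)) • br θ g (br θ (c * f) (e * u)) := by
  cases pe <;> cases pu <;> cases pc <;> cases pf <;> cases pg <;>
    simp only [Hm, if_true, Bool.false_eq_true, if_false] at he hu hc hf hg <;>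
    (simp (disch := simp only [map_mul, map_add, map_neg, neg_mul, mul_neg, neg_neg, neg_add, he, hu, hc, hf, hg]) only
      [br_even, br_odd, map_sub, map_mul, map_add, map_neg, hθ, sg, Bool.and_true, Bool.and_false,
      Bool.true_and, Bool.false_and, if_true, Bool.false_eq_true, if_false, he, hu, hc, hf, hg]
     try simp only [mul_sub, sub_mul, mul_add, add_mul, mul_assoc, neg_mul, mul_neg, neg_neg]
     abel)

theorem idS {pa pe : Bool} {a e z : R} (ha : Hm θ pa a) (he : Hm θ pe e) (hz : θ z = z) (w : R) :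
    br θ (z * z * a) (br θ e w) + (2 : ℤ) • br θ (z * a * z) (br θ e w) +
      br θ (a * z * z) (br θ e w) =
      ((((4) : ℤ)) • br θ (a * z) (br θ (z * e) w) +
      (((-4) * sg pe pa : ℤ)) • br θ z (br θ (e * a * z) w) +
      (((-4) : ℤ)) • br θ z (br θ (a * e * z) w) +
      (((4) : ℤ)) • br θ (z * a) (br θ (e * z) w) +
      (((2) : ℤ)) • br θ (z * z) (br θ (a * e) w) +
      (((-4) : ℤ)) • br θ a (br θ (z * e * z) w) +
      (((2) * sg pe pa : ℤ)) • br θ (z * z) (br θ (e * a) w)) +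
      ((((-4) * sg pe pa : ℤ)) • br θ z (br θ z (br θ (e * a) w)) +
      (((2) : ℤ)) • br θ z (br θ a (br θ z (br θ e w))) +
      (((2) * sg pe pa : ℤ)) • br θ z (br θ z (br θ e (br θ a w))) +
      (((-1) : ℤ)) • br θ z (br θ z (br θ a (br θ e w))) +
      (((-3) : ℤ)) • br θ a (br θ z (br θ z (br θ e w))) +
      (((4) * sg pe pa : ℤ)) • br θ z (br θ (e * a) (br θ z w)) +
      (((4) : ℤ)) • br θ a (br θ z (br θ e (br θ z w)))) := by
  cases pa <;> cases pe <;>
    simp only [Hm, if_true, Bool.false_eq_true, if_false] at ha he <;>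
    (simp (disch := simp only [map_mul, map_add, map_neg, neg_mul, mul_neg, neg_neg, neg_add, ha, he, hz]) only
      [br_even, br_odd, map_sub, map_mul, map_add, map_neg, hθ, sg, Bool.and_true, Bool.and_false,
      Bool.true_and, Bool.false_and, if_true, Bool.false_eq_true, if_false, ha, he, hz]
     try simp only [mul_sub, sub_mul, mul_add, add_mul, mul_assoc, neg_mul, mul_neg, neg_neg]
     abel)

end identities

end H102Z.Lcs
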